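import Pool.Agent.Lib.MP_8fca14_co.Five.Defs

set_option autoImplicit false

/-!
# CNT: counting
-/

namespace Pool.Agent.Lib.MP_8fca14_co.Five

open Set

private theorem one_side (A : Fin 4 → ℝ) (e : ℝ)
    (hAe : ∀ i, A i ≤ e)
    (hA3 : (∃ i j k, i ≠ j ∧ i ≠ k ∧ j ≠ k ∧ 0 < A i ∧ 0 < A j ∧ 0 < A k) →
      ∃ c, ∑ i, A i < 2 * A c) : ∑ i, A i ≤ 2 * e := by
  by_cases h : ∃ i j k, i ≠ j ∧ i ≠ k ∧ j ≠ k ∧ 0 < A i ∧ 0 < A j ∧ 0 < A k
  · obtain ⟨c, hc⟩ := hA3 h
    linarith [hAe c]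
  · push Not at h
    rw [Fin.sum_univ_four]
    have e0 := hAe 0
    have e1 := hAe 1
    have e2 := hAe 2
    have e3 := hAe 3
    have h012 := h 0 1 2 (by decide) (by decide) (by decide)
    have h013 := h 0 1 3 (by decide) (by decide) (by decide)
    have h023 := h 0 2 3 (by decide) (by decide) (by decide)
    have h123 := h 1 2 3 (by decide) (by decide) (by decide)
    by_cases p0 : 0 < A 0
    · by_cases p1 : 0 < A 1
      · have := h012 p0 p1
        have := h013 p0 p1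
        linarith
      · by_cases p2 : 0 < A 2
        · have := h023 p0 p2
          linarith
        · linarith
    · by_cases p1 : 0 < A 1
      · by_cases p2 : 0 < A 2
        · have := h123 p1 p2
          linarith
        · linarith
      · linarith

theorem counting (A B : Fin 4 → ℝ) (e : ℝ) (he : 0 < e) (hA : ∀ i, 0 ≤ A i) (hB : ∀ i, 0 ≤ B i)
    (hAB : ∀ i, A i + B i = e)
    (hA3 : (∃ i j k, i ≠ j ∧ i ≠ k ∧ j ≠ k ∧ 0 < A i ∧ 0 < A j ∧ 0 < A k) →
      ∃ c, ∑ i, A i < 2 * A c)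
    (hB3 : (∃ i j k, i ≠ j ∧ i ≠ k ∧ j ≠ k ∧ 0 < B i ∧ 0 < B j ∧ 0 < B k) →
      ∃ c, ∑ i, B i < 2 * B c) :
    (∀ i, A i = 0 ∨ A i = e) ∧ ∑ i, A i = 2 * e ∧ ∑ i, B i = 2 * e := by
  have hAe : ∀ i, A i ≤ e := fun i => by linarith [hAB i, hB i]
  have hBe : ∀ i, B i ≤ e := fun i => by linarith [hAB i, hA i]
  have h1 := one_side A e hAe hA3
  have h2 := one_side B e hBe hB3
  have h3 : ∑ i, A i + ∑ i, B i = 4 * e := by
    rw [← Finset.sum_add_distrib, Finset.sum_congr rfl fun i _ => hAB i]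
    simp
  have hA2 : ∑ i, A i = 2 * e := by linarith
  have hB2 : ∑ i, B i = 2 * e := by linarith
  refine ⟨?_, hA2, hB2⟩
  have hn : ¬ ∃ i j k, i ≠ j ∧ i ≠ k ∧ j ≠ k ∧ 0 < A i ∧ 0 < A j ∧ 0 < A k := by
    intro h
    obtain ⟨c, hc⟩ := hA3 h
    linarith [hAe c]
  push Not at hn
  rw [Fin.sum_univ_four] at hA2
  have e0 := hAe 0
  have e1 := hAe 1
  have e2 := hAe 2
  have e3 := hAe 3
  have g0 := hA 0
  have g1 := hA 1
  have g2 := hA 2
  have g3 := hA 3
  have h012 := hn 0 1 2 (by decide) (by decide) (by decide)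
  have h013 := hn 0 1 3 (by decide) (by decide) (by decide)
  have h023 := hn 0 2 3 (by decide) (by decide) (by decide)
  have h123 := hn 1 2 3 (by decide) (by decide) (by decide)
  have aux : ∀ x y z w : ℝ, x + y + z + w = 2 * e → x ≤ e → 0 ≤ x → y ≤ e → z ≤ e → w ≤ e →
      0 ≤ y → 0 ≤ z → 0 ≤ w → (0 < x → 0 < y → z ≤ 0) → (0 < x → 0 < y → w ≤ 0) →
      (0 < x → 0 < z → w ≤ 0) → x = 0 ∨ x = e := by
    intro x y z w hs hx hx0 hy hz hw hy0 hz0 hw0 k1 k2 k3
    rcases eq_or_lt_of_le hx0 with h | h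
    · exact Or.inl h.symm
    · right
      by_cases py : 0 < y
      · have := k1 h py
        have := k2 h py
        linarith
      · by_cases pz : 0 < z
        · have := k3 h pz
          linarith
        · linarith
  intro i
  fin_cases i
  · exact aux (A 0) (A 1) (A 2) (A 3) hA2 e0 g0 e1 e2 e3 g1 g2 g3 h012 h013 h023
  · exact aux (A 1) (A 0) (A 2) (A 3) (by linarith) e1 g1 e0 e2 e3 g0 g2 g3
      (fun p q => h012 q p) (fun p q => h013 q p) h123
  · exact aux (A 2) (A 0) (A 1) (A 3) (by linarith) e2 g2 e0 e1 e3 g0 g1 g3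
      (fun p q => by
        by_contra hc
        have := h012 q (not_le.1 hc)
        linarith) (fun p q => h023 q p) (fun p q => h123 q p)
  · exact aux (A 3) (A 0) (A 1) (A 2) (by linarith) e3 g3 e0 e1 e2 g0 g1 g2
      (fun p q => by
        by_contra hc
        have := h013 q (not_le.1 hc)
        linarith)
      (fun p q => by
        by_contra hc
        have := h023 q (not_le.1 hc)
        linarith)
      (fun p q => by
        by_contra hc
        have := h123 q (not_le.1 hc)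
        linarith)

end Pool.Agent.Lib.MP_8fca14_co.Five
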