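import Pool.Agent.Lib.MP_8fca14_co.Five.Defs
import Pool.Agent.Lib.MP_8fca14_co.Six.BR2

set_option autoImplicit false

/-!
# FIX: the Brouwer argument
-/

namespace Pool.Agent.Lib.MP_8fca14_co.Five

open Set
open Pool.Agent.Lib.MP_8fca14_co.Six

lemma one_add_pos {N : Type*} [Fintype N] {c : N → ℝ} (hc : ∀ n, 0 ≤ c n) :
    0 < 1 + ∑ n, c n := by
  have := Finset.sum_nonneg (fun n (_ : n ∈ Finset.univ) => hc n)
  linarith

lemma avg_mem {N E : Type*} [Fintype N] [AddCommGroup E] [Module ℝ E] {K : Set E}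
    (hK : Convex ℝ K) {x : E} (hx : x ∈ K) {z : N → E} (hz : ∀ n, z n ∈ K) {c : N → ℝ}
    (hc : ∀ n, 0 ≤ c n) : (1 + ∑ n, c n)⁻¹ • (x + ∑ n, c n • z n) ∈ K := by
  have h0 := one_add_pos hc
  have h1 := hK.sum_mem (t := (Finset.univ : Finset (Option N)))
    (w := fun o => (1 + ∑ n, c n)⁻¹ * o.elim 1 c) (z := fun o => o.elim x z) ?_ ?_ ?_
  · rw [Fintype.sum_option] at h1
    simp only [Option.elim_none, Option.elim_some, mul_one] at h1
    rw [smul_add, Finset.smul_sum]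
    simpa only [mul_smul] using h1
  · rintro (_ | n) _
    · exact mul_nonneg (inv_nonneg.2 h0.le) zero_le_one
    · exact mul_nonneg (inv_nonneg.2 h0.le) (hc n)
  · rw [← Finset.mul_sum, Fintype.sum_option]
    exact inv_mul_cancel₀ h0.ne'
  · rintro (_ | n) _
    · exact hx
    · exact hz n

/-- the points of division -/
noncomputable def tt (lo hi : ℝ) (y : Fin 4 → ℝ) (i : ℕ) : ℝ :=
  lo + (hi - lo) * ∑ j ∈ Finset.univ.filter (fun j : Fin 4 => (j : ℕ) < i), y j

lemma tt_zero (lo hi : ℝ) (y : Fin 4 → ℝ) : tt lo hi y 0 = lo := by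
  unfold tt
  rw [Finset.filter_false_of_mem (fun j _ => Nat.not_lt_zero _), Finset.sum_empty, mul_zero,
    add_zero]

lemma tt_four (lo hi : ℝ) (y : Fin 4 → ℝ) (hy : ∑ j, y j = 1) : tt lo hi y 4 = hi := by
  unfold tt
  rw [Finset.filter_true_of_mem (fun j _ => j.2), hy]
  ring

lemma tt_mono (lo hi : ℝ) (h : lo ≤ hi) (y : Fin 4 → ℝ) (hy : ∀ j, 0 ≤ y j) :
    Monotone (tt lo hi y) := by
  intro i k hik
  unfold tt
  have h1 : ∑ j ∈ Finset.univ.filter (fun j : Fin 4 => (j : ℕ) < i), y j ≤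
      ∑ j ∈ Finset.univ.filter (fun j : Fin 4 => (j : ℕ) < k), y j := by
    refine Finset.sum_le_sum_of_subset_of_nonneg ?_ (fun j _ _ => hy j)
    intro j hj
    rw [Finset.mem_filter] at hj ⊢
    exact ⟨hj.1, lt_of_lt_of_le hj.2 hik⟩
  have h2 : 0 ≤ hi - lo := by linarith
  nlinarith [mul_le_mul_of_nonneg_left h1 h2]

lemma tt_succ (lo hi : ℝ) (y : Fin 4 → ℝ) (i : Fin 4) (hy : y i = 0) :
    tt lo hi y ((i : ℕ) + 1) = tt lo hi y i := by
  unfold tt
  congr 2
  symm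
  refine Finset.sum_subset ?_ ?_
  · intro j hj
    rw [Finset.mem_filter] at hj ⊢
    exact ⟨hj.1, Nat.lt_succ_of_lt hj.2⟩
  · intro j hj hj2
    rw [Finset.mem_filter] at hj hj2
    have h1 : ¬ (j : ℕ) < i := fun h => hj2 ⟨hj.1, h⟩
    have h2 : j = i := Fin.ext (by omega)
    rw [h2, hy]

theorem fixed_point {V E : Type*} [Fintype V] [DecidableEq V] [NormedAddCommGroup E]
    [NormedSpace ℝ E] [FiniteDimensional ℝ E] (a b : V → ℝ) (hab : ∀ v, a v ≤ b v)
    (KL KR : Set E) (hKL : Convex ℝ KL) (hKR : Convex ℝ KR) (hKLc : IsCompact KL)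
    (hKRc : IsCompact KR) (hKL0 : KL.Nonempty) (hKR0 : KR.Nonempty)
    (πL πR : V → E → E) (hπL : ∀ v, Continuous (πL v)) (hπR : ∀ v, Continuous (πR v))
    (mL : ∀ v x, πL v x ∈ KL) (mR : ∀ v x, πR v x ∈ KR)
    (α β : (V × Fin 4 → ℝ) → V × Fin 4 → ℝ) (hα : Continuous α) (hβ : Continuous β)
    (α0 : ∀ ω n, 0 ≤ α ω n) (β0 : ∀ ω n, 0 ≤ β ω n)
    (αs : ∀ ω, (∀ n, 0 ≤ ω n) → ∀ n, 0 < α ω n → 0 < ω n)
    (βs : ∀ ω, (∀ n, 0 ≤ ω n) → ∀ n, 0 < β ω n → 0 < ω n) :
    ∃ (t : ℕ → ℝ) (wL wR : E) (e : ℝ), wL ∈ KL ∧ wR ∈ KR ∧ Monotone t ∧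
      (∀ v, t 0 < a v) ∧ (∀ v, b v < t 4) ∧
      (∀ ω, ω = weight a b t (fun v => ‖πL v wL - wL‖) (fun v => ‖πR v wR - wR‖) →
        ∑ n, α ω n • (πL n.1 wL - wL) = 0 ∧ ∑ n, β ω n • (πR n.1 wR - wR) = 0 ∧
        ∀ i, ∑ v, (α ω (v, i) * ‖πL v wL - wL‖ + β ω (v, i) * ‖πR v wR - wR‖) = e) := by
  classical
  -- the bounds
  set B : ℝ := 1 + ∑ v, (|a v| + |b v|) with hB
  have hB0 : ∀ v, |a v| + |b v| < B := by
    intro v
    have := Finset.single_le_sum (f := fun v => |a v| + |b v|)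
      (fun v _ => add_nonneg (abs_nonneg (a v)) (abs_nonneg (b v))) (Finset.mem_univ v)
    rw [hB]
    linarith
  have hBp : 0 < B := by
    have := Finset.sum_nonneg (s := Finset.univ) (f := fun v => |a v| + |b v|)
      (fun v _ => add_nonneg (abs_nonneg (a v)) (abs_nonneg (b v)))
    rw [hB]
    linarith
  have hlo : ∀ v, -B < a v := by
    intro v
    have h1 := hB0 v
    have h2 := neg_abs_le (a v)
    have h3 := abs_nonneg (b v)
    linarith
  have hhi : ∀ v, b v < B := by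
    intro v
    have h1 := hB0 v
    have h2 := le_abs_self (b v)
    have h3 := abs_nonneg (a v)
    linarith
  -- the functions
  let ωf : ((Fin 4 → ℝ) × E × E) → V × Fin 4 → ℝ := fun x =>
    weight a b (tt (-B) B x.1) (fun v => ‖πL v x.2.1 - x.2.1‖) (fun v => ‖πR v x.2.2 - x.2.2‖)
  have hωc : Continuous ωf := by
    refine continuous_pi fun n => ?_
    have h1 := hπL n.1
    have h2 := hπR n.1
    simp only [ωf, weight, tt]
    fun_prop
  let Ef : ((Fin 4 → ℝ) × E × E) → Fin 4 → ℝ := fun x i =>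
    ∑ v, (α (ωf x) (v, i) * ‖πL v x.2.1 - x.2.1‖ + β (ωf x) (v, i) * ‖πR v x.2.2 - x.2.2‖)
  have hαc : ∀ n, Continuous fun x : (Fin 4 → ℝ) × E × E => α (ωf x) n :=
    fun n => (continuous_apply n).comp (hα.comp hωc)
  have hβc : ∀ n, Continuous fun x : (Fin 4 → ℝ) × E × E => β (ωf x) n :=
    fun n => (continuous_apply n).comp (hβ.comp hωc)
  have hEc : ∀ i, Continuous fun x : (Fin 4 → ℝ) × E × E => Ef x i := by
    intro i
    refine continuous_finsetSum _ fun v _ => ?_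
    have h1 := hπL v
    have h2 := hπR v
    have h3 := hαc (v, i)
    have h4 := hβc (v, i)
    refine (h3.mul ?_).add (h4.mul ?_)
    · fun_prop
    · fun_prop
  let mb : ((Fin 4 → ℝ) × E × E) → ℝ := fun x => (∑ i, Ef x i) / 4
  have hmc : Continuous mb := (continuous_finsetSum _ fun i _ => hEc i).div_const 4
  let df : ((Fin 4 → ℝ) × E × E) → Fin 4 → ℝ := fun x i => max 0 (mb x - Ef x i)
  have hdc : ∀ i, Continuous fun x : (Fin 4 → ℝ) × E × E => df x i := fun i =>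
    continuous_const.max (hmc.sub (hEc i))
  have hd0 : ∀ x i, 0 ≤ df x i := fun x i => le_max_left _ _
  let F : ((Fin 4 → ℝ) × E × E) → ((Fin 4 → ℝ) × E × E) := fun x =>
    (fun i => (1 + ∑ j, df x j)⁻¹ * (x.1 i + df x i),
      (1 + ∑ n, α (ωf x) n)⁻¹ • (x.2.1 + ∑ n, α (ωf x) n • πL n.1 x.2.1),
      (1 + ∑ n, β (ωf x) n)⁻¹ • (x.2.2 + ∑ n, β (ωf x) n • πR n.1 x.2.2))
  have hFc : Continuous F := by
    refine Continuous.prodMk ?_ (Continuous.prodMk ?_ ?_)
    · refine continuous_pi fun i => ?_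
      refine Continuous.mul (Continuous.inv₀ ?_ ?_) ?_
      · exact continuous_const.add (continuous_finsetSum _ fun j _ => hdc j)
      · exact fun x => (one_add_pos (hd0 x)).ne'
      · exact ((continuous_apply i).comp continuous_fst).add (hdc i)
    · refine Continuous.smul (Continuous.inv₀ ?_ ?_) ?_
      · exact continuous_const.add (continuous_finsetSum _ fun j _ => hαc j)
      · exact fun x => (one_add_pos (α0 (ωf x))).ne'
      · refine Continuous.add (by fun_prop) (continuous_finsetSum _ fun j _ => ?_)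
        exact (hαc j).smul ((hπL j.1).comp (by fun_prop))
    · refine Continuous.smul (Continuous.inv₀ ?_ ?_) ?_
      · exact continuous_const.add (continuous_finsetSum _ fun j _ => hβc j)
      · exact fun x => (one_add_pos (β0 (ωf x))).ne'
      · refine Continuous.add (by fun_prop) (continuous_finsetSum _ fun j _ => ?_)
        exact (hβc j).smul ((hπR j.1).comp (by fun_prop))
  -- the fixed point
  have hK1 : IsCompact (stdSimplex ℝ (Fin 4)) := isCompact_stdSimplex ℝ (Fin 4)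
  have hK2 : Convex ℝ (stdSimplex ℝ (Fin 4)) := convex_stdSimplex ℝ (Fin 4)
  have hK3 : (stdSimplex ℝ (Fin 4)).Nonempty := ⟨_, single_mem_stdSimplex ℝ (0 : Fin 4)⟩
  obtain ⟨x, hxK, hx⟩ := brouwer_convex (stdSimplex ℝ (Fin 4) ×ˢ (KL ×ˢ KR))
    (hK1.prod (hKLc.prod hKRc)) (hK2.prod (hKL.prod hKR)) (hK3.prod (hKL0.prod hKR0)) F
    hFc.continuousOn (by
      rintro x ⟨hx1, hx2, hx3⟩
      refine ⟨⟨fun i => ?_, ?_⟩, ?_, ?_⟩
      · exact mul_nonneg (inv_nonneg.2 (one_add_pos (hd0 x)).le)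
          (add_nonneg (hx1.1 i) (hd0 x i))
      · change ∑ i, (1 + ∑ j, df x j)⁻¹ * (x.1 i + df x i) = 1
        rw [← Finset.mul_sum, Finset.sum_add_distrib, hx1.2]
        exact inv_mul_cancel₀ (one_add_pos (hd0 x)).ne'
      · exact avg_mem hKL hx2 (fun n => mL n.1 _) (α0 (ωf x))
      · exact avg_mem hKR hx3 (fun n => mR n.1 _) (β0 (ωf x)))
  obtain ⟨hx1, hx2, hx3⟩ := hxK
  have hxa := congrArg Prod.fst hx
  have hxb := congrArg (fun z : (Fin 4 → ℝ) × E × E => z.2.1) hx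
  have hxc := congrArg (fun z : (Fin 4 → ℝ) × E × E => z.2.2) hx
  have hsolve : ∀ (w : E) (c : V × Fin 4 → ℝ) (z : V × Fin 4 → E), (∀ n, 0 ≤ c n) →
      (1 + ∑ n, c n)⁻¹ • (w + ∑ n, c n • z n) = w → ∑ n, c n • (z n - w) = 0 := by
    intro w c z hc h
    have h0 := one_add_pos hc
    have h1 : w + ∑ n, c n • z n = (1 + ∑ n, c n) • w := by
      rw [← h, smul_smul, mul_inv_cancel₀ h0.ne', one_smul, h]
    rw [add_smul, one_smul, Finset.sum_smul] at h1
    have h2 := add_left_cancel h1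
    simp only [smul_sub]
    rw [Finset.sum_sub_distrib, h2, sub_self]
  refine ⟨tt (-B) B x.1, x.2.1, x.2.2, mb x, hx2, hx3, tt_mono _ _ (by linarith) _ hx1.1, ?_, ?_,
    ?_⟩
  · intro v
    rw [tt_zero]
    exact hlo v
  · intro v
    rw [tt_four _ _ _ hx1.2]
    exact hhi v
  rintro ω rfl
  refine ⟨hsolve _ _ _ (α0 (ωf x)) hxb, hsolve _ _ _ (β0 (ωf x)) hxc, ?_⟩
  -- the energies
  have hω0 : ∀ n, 0 ≤ ωf x n := by
    intro n
    exact mul_nonneg (mul_nonneg (le_max_left _ _) (le_max_left _ _))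
      (mul_nonneg (norm_nonneg _) (norm_nonneg _))
  have hE0 : ∀ i, 0 ≤ Ef x i := fun i => Finset.sum_nonneg fun v _ =>
    add_nonneg (mul_nonneg (α0 _ _) (norm_nonneg _)) (mul_nonneg (β0 _ _) (norm_nonneg _))
  have hmb0 : 0 ≤ mb x := div_nonneg (Finset.sum_nonneg fun i _ => hE0 i) (by norm_num)
  have hzero : ∀ i, x.1 i = 0 → Ef x i = 0 := by
    intro i hi
    have hω : ∀ v, ωf x (v, i) = 0 := by
      intro v
      change max 0 (a v - tt (-B) B x.1 (i : ℕ)) * max 0 (tt (-B) B x.1 ((i : ℕ) + 1) - b v) *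
        (‖πL v x.2.1 - x.2.1‖ * ‖πR v x.2.2 - x.2.2‖) = 0
      rw [tt_succ _ _ _ _ hi]
      rcases le_total (a v) (tt (-B) B x.1 (i : ℕ)) with h | h
      · rw [max_eq_left (by linarith : a v - tt (-B) B x.1 (i : ℕ) ≤ 0), zero_mul, zero_mul]
      · have := hab v
        rw [max_eq_left (by linarith : tt (-B) B x.1 (i : ℕ) - b v ≤ 0), mul_zero, zero_mul]
    refine Finset.sum_eq_zero fun v _ => ?_
    have h1 : α (ωf x) (v, i) = 0 := by
      by_contra hne
      have := αs (ωf x) hω0 (v, i) (lt_of_le_of_ne (α0 _ _) (Ne.symm hne))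
      rw [hω v] at this
      exact lt_irrefl _ this
    have h2 : β (ωf x) (v, i) = 0 := by
      by_contra hne
      have := βs (ωf x) hω0 (v, i) (lt_of_le_of_ne (β0 _ _) (Ne.symm hne))
      rw [hω v] at this
      exact lt_irrefl _ this
    rw [h1, h2, zero_mul, zero_mul, add_zero]
  have hsum : ∑ i, Ef x i = ∑ _i : Fin 4, mb x := by
    rw [Finset.sum_const, Finset.card_univ, Fintype.card_fin]
    simp only [mb]
    rw [nsmul_eq_mul]
    push_cast
    ring
  have hle : ∀ j, Ef x j ≤ mb x := by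
    intro j
    by_contra hj
    push Not at hj
    have hdj : df x j = 0 := max_eq_left (by linarith)
    have hS0 : 0 < 1 + ∑ k, df x k := one_add_pos (hd0 x)
    have hyj : ∀ k, x.1 k * ∑ l, df x l = df x k := by
      intro k
      have h1 := congrFun hxa k
      change (1 + ∑ l, df x l)⁻¹ * (x.1 k + df x k) = x.1 k at h1
      have h2 : x.1 k + df x k = (1 + ∑ l, df x l) * x.1 k := by
        rw [← h1, ← mul_assoc, mul_inv_cancel₀ hS0.ne', one_mul, h1]
      linarith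
    rcases eq_or_ne (∑ l, df x l) 0 with hS | hS
    · have h1 : ∀ k, mb x ≤ Ef x k := by
        intro k
        have h2 := hyj k
        rw [hS, mul_zero] at h2
        have h3 : mb x - Ef x k ≤ df x k := le_max_right _ _
        linarith
      have h2 : ∑ _i : Fin 4, mb x < ∑ i, Ef x i :=
        Finset.sum_lt_sum (fun k _ => h1 k) ⟨j, Finset.mem_univ j, hj⟩
      exact lt_irrefl _ (hsum ▸ h2)
    · have h1 := hyj j
      rw [hdj] at h1
      have h2 : x.1 j = 0 := by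
        rcases mul_eq_zero.1 h1 with h | h
        · exact h
        · exact absurd h hS
      have h3 := hzero j h2
      linarith
  intro i
  have h1 := (Finset.sum_eq_sum_iff_of_le (fun j _ => hle j)).1 hsum
  exact h1 i (Finset.mem_univ i)

end Pool.Agent.Lib.MP_8fca14_co.Five
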