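import Pool.Agent.Lib.MP_8fca14_co.Five.Defs

set_option autoImplicit false

/-!
# LM: Lemma M
-/

namespace Pool.Agent.Lib.MP_8fca14_co.Five

open Set
open Pool.Agent.Lib.MP_8fca14_co.Six

namespace LmAux

/-- The statement for lifted angles. -/
theorem lifted {ι : Type*} (S : Finset ι) (θ : ι → ℝ) (cl : ι → ℕ) (Y : ι → ℝ)
    (hY : ∀ v ∈ S, 0 ≤ Y v) (hY0 : ∃ v ∈ S, 0 < Y v)
    (h2 : ∀ c, ∃ w ∈ S, cl w ≠ c)
    (hθ : ∀ x ∈ S, ∀ v ∈ S, cl x ≠ cl v → θ v - θ x < Real.pi)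
    (hs : ∀ φ : ℝ, ∑ v ∈ S, Y v * Real.cos (θ v - φ) = 0) :
    ∃ c, ∑ v ∈ S.filter (fun v => cl v ≠ c), Y v < ∑ v ∈ S.filter (fun v => cl v = c), Y v := by
  classical
  obtain ⟨v₀, hv₀, hv₀p⟩ := hY0
  obtain ⟨m, hm, hmin⟩ := S.exists_min_image θ ⟨v₀, hv₀⟩
  obtain ⟨M, hM, hmax⟩ := S.exists_max_image θ ⟨v₀, hv₀⟩
  set φ : ℝ := (θ m + θ M) / 2 with hφ
  set r : ℝ := (θ M - θ m) / 2 with hr
  have hr0 : 0 ≤ r := by
    have := hmin M hM
    rw [hr]; linarith
  have habs : ∀ v ∈ S, |θ v - φ| ≤ r := by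
    intro v hv
    have h1 := hmin v hv
    have h2 := hmax v hv
    rw [abs_le]
    constructor <;> rw [hφ, hr] <;> linarith
  -- all cosines positive is impossible
  have hpos : ¬ ∀ v ∈ S, 0 < Real.cos (θ v - φ) := by
    intro h
    have h1 : 0 < ∑ v ∈ S, Y v * Real.cos (θ v - φ) :=
      Finset.sum_pos' (fun v hv => mul_nonneg (hY v hv) (h v hv).le)
        ⟨v₀, hv₀, mul_pos hv₀p (h v₀ hv₀)⟩
    rw [hs φ] at h1
    exact lt_irrefl _ h1
  by_cases hcl : cl m = cl M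
  swap
  · exfalso
    apply hpos
    intro v hv
    have h1 := hθ m hm M hM hcl
    have h2 := abs_le.1 (habs v hv)
    apply Real.cos_pos_of_mem_Ioo
    constructor <;> linarith [h2.1, h2.2]
  · refine ⟨cl m, ?_⟩
    by_contra hcon
    push Not at hcon
    obtain ⟨w, hw, hwc⟩ := h2 (cl m)
    have hrpi : r < Real.pi := by
      have h1 := hθ w hw M hM (by rw [← hcl]; exact hwc)
      have h2 := hθ m hm w hw (Ne.symm hwc)
      rw [hr]; linarith
    have hcos : ∀ v ∈ S, Real.cos r ≤ Real.cos (θ v - φ) := by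
      intro v hv
      rw [← Real.cos_abs (θ v - φ)]
      exact Real.cos_le_cos_of_nonneg_of_le_pi (abs_nonneg _) hrpi.le (habs v hv)
    have hcos2 : ∀ v ∈ S, cl v ≠ cl m → - Real.cos r < Real.cos (θ v - φ) := by
      intro v hv hvc
      have h1 := hθ v hv M hM (by rw [← hcl]; exact hvc)
      have h2 := hθ m hm v hv (Ne.symm hvc)
      have h3 : |θ v - φ| < Real.pi - r := by
        rw [abs_lt]
        constructor <;> rw [hφ, hr] <;> linarith
      rw [← Real.cos_abs (θ v - φ), ← Real.cos_pi_sub]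
      exact Real.cos_lt_cos_of_nonneg_of_le_pi (abs_nonneg _) (by linarith) h3
    set Yc := ∑ v ∈ S.filter (fun v => cl v = cl m), Y v with hYc
    set Yr := ∑ v ∈ S.filter (fun v => cl v ≠ cl m), Y v with hYr
    have hYc0 : 0 ≤ Yc := Finset.sum_nonneg fun v hv => hY v (Finset.mem_filter.1 hv).1
    have hYr0 : 0 ≤ Yr := Finset.sum_nonneg fun v hv => hY v (Finset.mem_filter.1 hv).1
    have htot : Yc + Yr = ∑ v ∈ S, Y v := by
      rw [hYc, hYr]
      exact Finset.sum_filter_add_sum_filter_not S (fun v => cl v = cl m) Y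
    have htot0 : 0 < ∑ v ∈ S, Y v := Finset.sum_pos' hY ⟨v₀, hv₀, hv₀p⟩
    have hYrp : 0 < Yr := by
      by_contra h
      have : Yr = 0 := le_antisymm (not_lt.1 h) hYr0
      linarith
    rcases lt_or_ge 0 (Real.cos r) with hc | hc
    · exact hpos fun v hv => lt_of_lt_of_le hc (hcos v hv)
    · have hsplit := Finset.sum_filter_add_sum_filter_not S (fun v => cl v = cl m)
        (fun v => Y v * Real.cos (θ v - φ))
      rw [hs φ] at hsplit
      have e1 : Yc * Real.cos r ≤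
          ∑ v ∈ S.filter (fun v => cl v = cl m), Y v * Real.cos (θ v - φ) := by
        rw [hYc, Finset.sum_mul]
        exact Finset.sum_le_sum fun v hv =>
          mul_le_mul_of_nonneg_left (hcos v (Finset.mem_filter.1 hv).1)
            (hY v (Finset.mem_filter.1 hv).1)
      have e2 : Yr * (- Real.cos r) <
          ∑ v ∈ S.filter (fun v => ¬ cl v = cl m), Y v * Real.cos (θ v - φ) := by
        obtain ⟨x, hx, hxp⟩ := Finset.exists_lt_of_sum_lt
          (s := S.filter (fun v => cl v ≠ cl m)) (f := fun _ => (0 : ℝ)) (g := Y)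
          (by simpa using hYrp)
        rw [hYr, Finset.sum_mul]
        apply Finset.sum_lt_sum
        · intro v hv
          obtain ⟨hv1, hv2⟩ := Finset.mem_filter.1 hv
          exact mul_le_mul_of_nonneg_left (hcos2 v hv1 hv2).le (hY v hv1)
        · refine ⟨x, hx, ?_⟩
          obtain ⟨hx1, hx2⟩ := Finset.mem_filter.1 hx
          exact mul_lt_mul_of_pos_left (hcos2 x hx1 hx2) hxp
      nlinarith

/-- Angle of a quotient of two complex numbers of an open half plane. -/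
theorem arg_div_half (a b z : ℂ) (hb : b ≠ 0) (hz : z ≠ 0) (h1 : 0 < (a / z).re)
    (h2 : 0 < (b / z).re) :
    Complex.arg (a / b) = Complex.arg (a / z) - Complex.arg (b / z) ∧
      |Complex.arg (a / z)| < Real.pi / 2 ∧ |Complex.arg (b / z)| < Real.pi / 2 := by
  have h3 : |Complex.arg (a / z)| < Real.pi / 2 := Complex.abs_arg_lt_pi_div_two_iff.2 (Or.inl h1)
  have h4 : |Complex.arg (b / z)| < Real.pi / 2 := Complex.abs_arg_lt_pi_div_two_iff.2 (Or.inl h2)
  refine ⟨?_, h3, h4⟩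
  have hbz : b / z ≠ 0 := div_ne_zero hb hz
  have haz : a / z ≠ 0 := by
    intro h
    rw [h] at h1
    simp at h1
  have e1 : a / b = (a / z) * (b / z)⁻¹ := by
    field_simp
  have hpi : Complex.arg (b / z) ≠ Real.pi := by
    intro h
    rw [h, abs_of_pos Real.pi_pos] at h4
    linarith [Real.pi_pos]
  have e2 : Complex.arg (b / z)⁻¹ = - Complex.arg (b / z) := by
    rw [Complex.arg_inv, if_neg hpi]
  rw [abs_lt] at h3 h4
  rw [e1, Complex.arg_mul haz (inv_ne_zero hbz) (by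
    rw [e2]
    constructor <;> linarith [h3.1, h3.2, h4.1, h4.2]), e2]
  ring

theorem re_div_pos (a z : ℂ) (h : 0 < inner ℝ z a) : z ≠ 0 ∧ 0 < (a / z).re := by
  have hz : z ≠ 0 := by
    rintro rfl
    simp at h
  refine ⟨hz, ?_⟩
  rw [Complex.div_re]
  rw [Complex.inner] at h
  simp only [Complex.mul_re, Complex.conj_re, Complex.conj_im] at h
  have hn : 0 < Complex.normSq z := Complex.normSq_pos.2 hz
  rw [← add_div]
  apply div_pos _ hn
  linarith

/-- Lemma M for complex numbers. -/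
theorem complex_m {ι : Type*} (S : Finset ι) (u : ι → ℂ) (cl : ι → ℕ) (y : ι → ℝ)
    (hu : ∀ v ∈ S, u v ≠ 0) (hy : ∀ v ∈ S, 0 ≤ y v) (hy0 : ∃ v ∈ S, 0 < y v)
    (h3 : ∃ p ∈ S, ∃ q ∈ S, ∃ r ∈ S, cl p ≠ cl q ∧ cl p ≠ cl r ∧ cl q ≠ cl r)
    (hT : ∀ p ∈ S, ∀ q ∈ S, ∀ r ∈ S, cl p ≠ cl q → cl p ≠ cl r → cl q ≠ cl r →
      ∃ z : ℂ, 0 < inner ℝ z (u p) ∧ 0 < inner ℝ z (u q) ∧ 0 < inner ℝ z (u r))
    (hsum : ∑ v ∈ S, y v • u v = 0) :
    ∃ c, ∑ v ∈ S.filter (fun v => cl v ≠ c), y v * ‖u v‖ <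
      ∑ v ∈ S.filter (fun v => cl v = c), y v * ‖u v‖ := by
  classical
  -- angles
  set ang : ι → ι → ℝ := fun x v => Complex.arg (u v / u x) with hang
  have tri : ∀ p ∈ S, ∀ q ∈ S, ∀ r ∈ S, cl p ≠ cl q → cl p ≠ cl r → cl q ≠ cl r →
      ang p q + ang q r = ang p r ∧ ang p q < Real.pi ∧ ang q p = - ang p q := by
    intro p hp q hq r hr h1 h2 h3'
    obtain ⟨z, zp, zq, zr⟩ := hT p hp q hq r hr h1 h2 h3'
    obtain ⟨hz, rp⟩ := re_div_pos _ _ zp
    obtain ⟨-, rq⟩ := re_div_pos _ _ zq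
    obtain ⟨-, rr⟩ := re_div_pos _ _ zr
    obtain ⟨a1, a2, a3⟩ := arg_div_half (u q) (u p) z (hu p hp) hz rq rp
    obtain ⟨b1, -, -⟩ := arg_div_half (u r) (u q) z (hu q hq) hz rr rq
    obtain ⟨c1, -, -⟩ := arg_div_half (u r) (u p) z (hu p hp) hz rr rp
    obtain ⟨d1, -, -⟩ := arg_div_half (u p) (u q) z (hu q hq) hz rp rq
    rw [abs_lt] at a2 a3
    refine ⟨?_, ?_, ?_⟩
    · simp only [hang]
      rw [a1, b1, c1]
      ring
    · simp only [hang]
      rw [a1]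
      linarith [a2.1, a2.2, a3.1, a3.2]
    · simp only [hang]
      rw [a1, d1]
      ring
  obtain ⟨p, hp, q, hq, r, hr, hpq, hpr, hqr⟩ := h3
  -- a third class
  have third : ∀ c d : ℕ, ∃ w ∈ S, cl w ≠ c ∧ cl w ≠ d := by
    intro c d
    by_cases h1 : cl p ≠ c ∧ cl p ≠ d
    · exact ⟨p, hp, h1⟩
    by_cases h2 : cl q ≠ c ∧ cl q ≠ d
    · exact ⟨q, hq, h2⟩
    refine ⟨r, hr, ?_, ?_⟩
    · intro h
      apply h1
      refine ⟨fun h' => hpr (h'.trans h.symm), fun h' => ?_⟩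
      apply h2
      exact ⟨fun h'' => hqr (h''.trans h.symm), fun h'' => hpq (h'.trans h''.symm)⟩
    · intro h
      apply h1
      refine ⟨fun h' => ?_, fun h' => hpr (h'.trans h.symm)⟩
      apply h2
      exact ⟨fun h'' => hpq (h'.trans h''.symm), fun h'' => hqr (h''.trans h.symm)⟩
  have anti : ∀ x ∈ S, ∀ v ∈ S, cl x ≠ cl v → ang v x = - ang x v ∧ ang x v < Real.pi := by
    intro x hx v hv hxv
    obtain ⟨w, hw, hw1, hw2⟩ := third (cl x) (cl v)
    obtain ⟨-, h1, h2⟩ := tri x hx v hv w hw hxv (Ne.symm hw1) (Ne.symm hw2)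
    exact ⟨h2, h1⟩
  -- the lift
  set θ : ι → ℝ := fun v => if cl v ≠ cl p then ang p v else ang p q + ang q v with hθdef
  have θ1 : ∀ v, cl v ≠ cl p → θ v = ang p v := fun v h => by simp [hθdef, h]
  have θ2 : ∀ v, cl v = cl p → θ v = ang p q + ang q v := fun v h => by simp [hθdef, h]
  -- differences of the lift
  have case1 : ∀ x ∈ S, ∀ v ∈ S, cl x ≠ cl v → cl x ≠ cl p → cl v ≠ cl p →
      θ v - θ x = ang x v := by
    intro x hx v hv hxv h1 h2
    rw [θ1 v h2, θ1 x h1]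
    linarith [(tri p hp x hx v hv (Ne.symm h1) (Ne.symm h2) hxv).1]
  have case2a : ∀ x ∈ S, ∀ v ∈ S, cl x = cl p → cl v ≠ cl p → cl v ≠ cl q →
      θ v - θ x = ang x v := by
    intro x hx v hv h1 h2 h3'
    rw [θ1 v h2, θ2 x h1]
    have t1 := (tri p hp q hq v hv hpq (Ne.symm h2) (Ne.symm h3')).1
    have t2 := (tri q hq x hx v hv (by rw [h1]; exact hpq.symm) (Ne.symm h3')
      (by rw [h1]; exact Ne.symm h2)).1
    linarith
  have case2 : ∀ x ∈ S, ∀ v ∈ S, cl x = cl p → cl v ≠ cl p → θ v - θ x = ang x v := by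
    intro x hx v hv h1 h2
    by_cases h4 : cl v = cl q
    swap
    · exact case2a x hx v hv h1 h2 h4
    · have k1 := case2a x hx r hr h1 hpr.symm hqr.symm
      have hvr : cl v ≠ cl r := by rw [h4]; exact hqr
      have k2 := case1 v hv r hr hvr h2 hpr.symm
      have hxr : cl x ≠ cl r := by rw [h1]; exact hpr
      have hxv : cl x ≠ cl v := by rw [h1]; exact Ne.symm h2
      have k3 := (tri x hx r hr v hv hxr hxv (Ne.symm hvr)).1
      have k4 := (anti v hv r hr hvr).1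
      linarith
  have diff : ∀ x ∈ S, ∀ v ∈ S, cl x ≠ cl v → θ v - θ x = ang x v := by
    intro x hx v hv hxv
    by_cases h1 : cl x = cl p
    · exact case2 x hx v hv h1 (by rw [← h1]; exact Ne.symm hxv)
    · by_cases h2 : cl v = cl p
      · have k1 := case2 v hv x hx h2 h1
        have k2 := (anti v hv x hx (Ne.symm hxv)).1
        linarith
      · exact case1 x hx v hv hxv h1 h2
  -- directions
  have dir : ∀ v ∈ S, u v * (‖u p‖ : ℂ) = (‖u v‖ : ℂ) * Complex.exp (θ v * Complex.I) * u p := by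
    have hup := hu p hp
    have hupn : (‖u p‖ : ℂ) ≠ 0 := by
      simpa using hup
    have gen : ∀ s t : ι, u s ≠ 0 → u t * (‖u s‖ : ℂ)
        = (‖u t‖ : ℂ) * Complex.exp (ang s t * Complex.I) * u s := by
      intro s t hs
      have hsn : (‖u s‖ : ℂ) ≠ 0 := by simpa using hs
      have e1 := Complex.norm_mul_exp_arg_mul_I (u t / u s)
      rw [norm_div, Complex.ofReal_div] at e1
      have e2 : u t = u t / u s * u s := by field_simp
      conv_lhs => rw [e2, ← e1]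
      simp only [hang]
      field_simp
    intro v hv
    by_cases h : cl v = cl p
    · have hq0 := hu q hq
      have hqn : (‖u q‖ : ℂ) ≠ 0 := by simpa using hq0
      have g1 := gen p q hup
      have g2 := gen q v hq0
      rw [θ2 v h]
      have e3 : Complex.exp (((ang p q + ang q v : ℝ) : ℂ) * Complex.I) =
          Complex.exp (ang p q * Complex.I) * Complex.exp (ang q v * Complex.I) := by
        rw [← Complex.exp_add]
        congr 1
        push_cast
        ring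
      rw [e3]
      apply mul_right_cancel₀ hqn
      calc u v * (‖u p‖ : ℂ) * (‖u q‖ : ℂ) = (u v * (‖u q‖ : ℂ)) * (‖u p‖ : ℂ) := by ring
        _ = (‖u v‖ : ℂ) * Complex.exp (ang q v * Complex.I) * (u q * (‖u p‖ : ℂ)) := by
            rw [g2]; ring
        _ = _ := by rw [g1]; ring
    · rw [θ1 v h]
      exact gen p v hup
  -- the sum of exponentials
  have hexp : ∑ v ∈ S, ((y v * ‖u v‖ : ℝ) : ℂ) * Complex.exp (θ v * Complex.I) = 0 := by
    have hup := hu p hp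
    apply mul_right_cancel₀ hup
    rw [zero_mul, Finset.sum_mul]
    have e1 : ∀ v ∈ S, ((y v * ‖u v‖ : ℝ) : ℂ) * Complex.exp (θ v * Complex.I) * u p
        = (y v • u v) * (‖u p‖ : ℂ) := by
      intro v hv
      have := dir v hv
      rw [Complex.real_smul]
      push_cast
      calc (y v : ℂ) * (‖u v‖ : ℂ) * Complex.exp (θ v * Complex.I) * u p
          = (y v : ℂ) * ((‖u v‖ : ℂ) * Complex.exp (θ v * Complex.I) * u p) := by ring
        _ = (y v : ℂ) * (u v * (‖u p‖ : ℂ)) := by rw [this]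
        _ = _ := by ring
    rw [Finset.sum_congr rfl e1, ← Finset.sum_mul, hsum, zero_mul]
  have hcos : ∀ φ : ℝ, ∑ v ∈ S, (y v * ‖u v‖) * Real.cos (θ v - φ) = 0 := by
    intro φ
    have h1 : ∑ v ∈ S, ((y v * ‖u v‖ : ℝ) : ℂ) * Complex.exp (((θ v - φ : ℝ) : ℂ) * Complex.I)
        = 0 := by
      have h2 : ∀ v ∈ S, ((y v * ‖u v‖ : ℝ) : ℂ) * Complex.exp (((θ v - φ : ℝ) : ℂ) * Complex.I)
          = (((y v * ‖u v‖ : ℝ) : ℂ) * Complex.exp (θ v * Complex.I)) *
            Complex.exp (((-φ : ℝ) : ℂ) * Complex.I) := by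
        intro v _
        rw [mul_assoc, ← Complex.exp_add]
        congr 2
        push_cast
        ring
      rw [Finset.sum_congr rfl h2, ← Finset.sum_mul, hexp, zero_mul]
    have h3 := congrArg Complex.re h1
    rw [Complex.re_sum, Complex.zero_re] at h3
    rw [← h3]
    refine Finset.sum_congr rfl fun v _ => ?_
    rw [Complex.re_ofReal_mul, Complex.exp_ofReal_mul_I_re]
  obtain ⟨v₀, hv₀, hv₀p⟩ := hy0
  obtain ⟨c, hc⟩ := lifted S θ cl (fun v => y v * ‖u v‖)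
    (fun v hv => mul_nonneg (hy v hv) (norm_nonneg _))
    ⟨v₀, hv₀, mul_pos hv₀p (norm_pos_iff.2 (hu v₀ hv₀))⟩
    (fun c => by
      obtain ⟨w, hw, hw1, -⟩ := third c c
      exact ⟨w, hw, hw1⟩)
    (fun x hx v hv hxv => by
      rw [diff x hx v hv hxv]
      exact (anti x hx v hv hxv).2)
    hcos
  exact ⟨c, hc⟩

end LmAux

open LmAux

theorem lemma_m {ι : Type*} (S : Finset ι) (u : ι → Pl) (cl : ι → ℕ) (y : ι → ℝ)
    (hu : ∀ v ∈ S, u v ≠ 0) (hy : ∀ v ∈ S, 0 ≤ y v) (hy0 : ∃ v ∈ S, 0 < y v)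
    (h3 : ∃ p ∈ S, ∃ q ∈ S, ∃ r ∈ S, cl p ≠ cl q ∧ cl p ≠ cl r ∧ cl q ≠ cl r)
    (hT : ∀ p ∈ S, ∀ q ∈ S, ∀ r ∈ S, cl p ≠ cl q → cl p ≠ cl r → cl q ≠ cl r →
      ∃ z : Pl, 0 < inner ℝ z (u p) ∧ 0 < inner ℝ z (u q) ∧ 0 < inner ℝ z (u r))
    (hsum : ∑ v ∈ S, y v • u v = 0) :
    ∃ c, ∑ v ∈ S.filter (fun v => cl v ≠ c), y v * ‖u v‖ <
      ∑ v ∈ S.filter (fun v => cl v = c), y v * ‖u v‖ := by
  set Φ : Pl ≃ₗᵢ[ℝ] ℂ := Complex.orthonormalBasisOneI.repr.symm with hΦ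
  obtain ⟨c, hc⟩ := complex_m S (fun v => Φ (u v)) cl y
    (fun v hv h => hu v hv (by simpa using h)) hy hy0 h3
    (fun p hp q hq r hr h1 h2 h3' => by
      obtain ⟨z, z1, z2, z3⟩ := hT p hp q hq r hr h1 h2 h3'
      refine ⟨Φ z, ?_, ?_, ?_⟩
      · rw [Φ.inner_map_map]; exact z1
      · rw [Φ.inner_map_map]; exact z2
      · rw [Φ.inner_map_map]; exact z3)
    (by
      have : ∑ v ∈ S, y v • Φ (u v) = Φ (∑ v ∈ S, y v • u v) := by
        rw [map_sum]
        exact Finset.sum_congr rfl fun v _ => (map_smul Φ (y v) (u v)).symm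
      rw [this, hsum, map_zero])
  refine ⟨c, ?_⟩
  simpa using hc

end Pool.Agent.Lib.MP_8fca14_co.Five
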