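import Pool.Agent.Lib.MP_8fca14_co.Five.Defs

set_option autoImplicit false

/-!
# NES: nestedness
-/

namespace Pool.Agent.Lib.MP_8fca14_co.Five

open Set

theorem nested {V : Type*} [DecidableEq V] (P Q : Finset V) (hP : P.Nonempty)
    (Rc : V → V → Prop) (hs : ∀ u v, Rc u v → Rc v u)
    (h4 : ∀ p ∈ P, ∀ q ∈ Q, ∀ p' ∈ P, ∀ q' ∈ Q,
      Rc p q → ¬ Rc q p' → Rc p' q' → ¬ Rc q' p → False) :
    (∃ q ∈ Q, ∀ p ∈ P, ¬ Rc p q) ∨ ∃ p ∈ P, ∀ q ∈ Q, Rc p q := by
  classical
  set N : V → Finset V := fun p => Q.filter fun q => ¬ Rc p q with hN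
  obtain ⟨p₀, hp₀, hmin⟩ := P.exists_min_image (fun p => (N p).card) hP
  by_cases he : N p₀ = ∅
  · refine Or.inr ⟨p₀, hp₀, fun q hq => ?_⟩
    by_contra hcon
    have : q ∈ N p₀ := by simp [hN, hq, hcon]
    rw [he] at this
    simp at this
  · obtain ⟨q, hq⟩ := Finset.nonempty_iff_ne_empty.2 he
    have hq1 : q ∈ Q := (Finset.mem_filter.1 hq).1
    have hq2 : ¬ Rc p₀ q := (Finset.mem_filter.1 hq).2
    refine Or.inl ⟨q, hq1, fun p' hp' hR => ?_⟩
    have hcard := hmin p' hp'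
    have hqn : q ∉ N p' := by
      intro h
      exact (Finset.mem_filter.1 h).2 hR
    have hex : ∃ q' ∈ N p', q' ∉ N p₀ := by
      by_contra hcon
      push Not at hcon
      have hsub : N p' ⊆ (N p₀).erase q := by
        intro x hx
        refine Finset.mem_erase.2 ⟨?_, hcon x hx⟩
        rintro rfl
        exact hqn hx
      have h1 := Finset.card_le_card hsub
      rw [Finset.card_erase_of_mem hq] at h1
      have h2 : 0 < (N p₀).card := Finset.card_pos.2 ⟨q, hq⟩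
      have h3 : (N p₀).card ≤ (N p').card := hcard
      omega
    obtain ⟨q', hq', hq'n⟩ := hex
    have hq'1 : q' ∈ Q := (Finset.mem_filter.1 hq').1
    have hq'2 : ¬ Rc p' q' := (Finset.mem_filter.1 hq').2
    have hq'3 : Rc p₀ q' := by
      by_contra hcon
      exact hq'n (by simp [hN, hq'1, hcon])
    exact h4 p' hp' q hq1 p₀ hp₀ q' hq'1 hR (fun h => hq2 (hs _ _ h)) hq'3
      (fun h => hq'2 (hs _ _ h))

end Pool.Agent.Lib.MP_8fca14_co.Five
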