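import Pool.Agent.Lib.MP_8fca14_co.Five.Defs

set_option autoImplicit false

/-!
# SPL: the explicit splitting
-/

namespace Pool.Agent.Lib.MP_8fca14_co.Five

section spl

variable {N : Type*} [Fintype N]

open Classical in
/-- the sum over the mixed triangles at `n` of type `P` -/
noncomputable def splE (reg : N → ℕ) (P : N → N → Prop) (ω : N → ℝ) (n : N) : ℝ :=
  ∑ x, ∑ y, if reg x ≠ reg n ∧ reg y ≠ reg n ∧ reg x ≠ reg y ∧ P n x ∧ P n y ∧ ¬ P x y
    then ω x * ω y else 0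

open Classical in
/-- the part of the splitting of type `P` -/
noncomputable def splA (reg : N → ℕ) (P : N → N → Prop) (ω : N → ℝ) (n : N) : ℝ :=
  max 0 (ω n - splE reg P ω n) * ∏ x, if reg x ≠ reg n ∧ P n x
    then max 0 ((ω n - splE reg P ω n) - (ω x - splE reg P ω x)) else 1

/-- no alternating 4-cycle -/
def splAlt (reg : N → ℕ) (P : N → N → Prop) (ω : N → ℝ) : Prop :=
  ∀ x₁ x₂ x₃ x₄, 0 < ω x₁ → 0 < ω x₂ → 0 < ω x₃ → 0 < ω x₄ → reg x₁ ≠ reg x₂ →
    reg x₂ ≠ reg x₃ → reg x₃ ≠ reg x₄ → reg x₄ ≠ reg x₁ →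
    P x₁ x₂ → ¬ P x₂ x₃ → P x₃ x₄ → ¬ P x₄ x₁ → False

variable (reg : N → ℕ) (P : N → N → Prop)

theorem splE_cont (n : N) : Continuous fun ω : N → ℝ => splE reg P ω n := by
  classical
  unfold splE
  refine continuous_finsetSum _ fun x _ => continuous_finsetSum _ fun y _ => ?_
  split_ifs
  · exact (continuous_apply x).mul (continuous_apply y)
  · exact continuous_const

theorem splA_cont : Continuous (splA reg P) := by
  classical
  refine continuous_pi fun n => ?_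
  unfold splA
  refine Continuous.mul ?_ ?_
  · exact continuous_const.max ((continuous_apply n).sub (splE_cont reg P n))
  · refine continuous_finsetProd _ fun x _ => ?_
    split_ifs
    · exact continuous_const.max (((continuous_apply n).sub (splE_cont reg P n)).sub
        ((continuous_apply x).sub (splE_cont reg P x)))
    · exact continuous_const

theorem splE_nonneg {ω : N → ℝ} (h : ∀ n, 0 ≤ ω n) (n : N) : 0 ≤ splE reg P ω n := by
  classical
  unfold splE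
  refine Finset.sum_nonneg fun x _ => Finset.sum_nonneg fun y _ => ?_
  split_ifs
  · exact mul_nonneg (h x) (h y)
  · exact le_refl _

theorem splA_nonneg (ω : N → ℝ) (n : N) : 0 ≤ splA reg P ω n := by
  classical
  unfold splA
  refine mul_nonneg (le_max_left _ _) (Finset.prod_nonneg fun x _ => ?_)
  split_ifs
  · exact le_max_left _ _
  · exact zero_le_one

theorem splA_supp {ω : N → ℝ} (h : ∀ n, 0 ≤ ω n) (n : N) (hn : 0 < splA reg P ω n) : 0 < ω n := by
  by_contra hcon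
  have h0 : ω n = 0 := le_antisymm (not_lt.1 hcon) (h n)
  have h1 := splE_nonneg reg P h n
  unfold splA at hn
  rw [h0, zero_sub, max_eq_left (by linarith), zero_mul] at hn
  exact lt_irrefl _ hn

theorem splA_factor {ω : N → ℝ} {m n : N} (hm : 0 < splA reg P ω m) (hr : reg n ≠ reg m)
    (hP : P m n) : ω n - splE reg P ω n < ω m - splE reg P ω m := by
  classical
  by_contra hcon
  have : splA reg P ω m = 0 := by
    unfold splA
    rw [Finset.prod_eq_zero (Finset.mem_univ n), mul_zero]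
    rw [if_pos ⟨hr, hP⟩]
    exact max_eq_left (by linarith)
  rw [this] at hm
  exact lt_irrefl _ hm

theorem splA_clique (hs : ∀ m n, P m n → P n m) {ω : N → ℝ} {m n : N}
    (hm : 0 < splA reg P ω m) (hn : 0 < splA reg P ω n) (hr : reg m ≠ reg n) : ¬ P m n := by
  intro hP
  have h1 := splA_factor reg P hm hr.symm hP
  have h2 := splA_factor reg P hn hr (hs _ _ hP)
  linarith

theorem splE_ne {ω : N → ℝ} (h : ∀ n, 0 ≤ ω n) {n : N} (hn : splE reg P ω n ≠ 0) :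
    ∃ x y, reg x ≠ reg n ∧ reg y ≠ reg n ∧ reg x ≠ reg y ∧ P n x ∧ P n y ∧ ¬ P x y ∧
      0 < ω x ∧ 0 < ω y := by
  classical
  unfold splE at hn
  obtain ⟨x, -, hx⟩ := Finset.exists_ne_zero_of_sum_ne_zero hn
  obtain ⟨y, -, hy⟩ := Finset.exists_ne_zero_of_sum_ne_zero hx
  split_ifs at hy with hc
  · refine ⟨x, y, hc.1, hc.2.1, hc.2.2.1, hc.2.2.2.1, hc.2.2.2.2.1, hc.2.2.2.2.2, ?_, ?_⟩
    · exact lt_of_le_of_ne (h x) (fun h0 => hy (by rw [← h0, zero_mul]))
    · exact lt_of_le_of_ne (h y) (fun h0 => hy (by rw [← h0, mul_zero]))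
  · exact absurd rfl hy

theorem splE_pos {ω : N → ℝ} (h : ∀ n, 0 ≤ ω n) {n x y : N} (h1 : reg x ≠ reg n)
    (h2 : reg y ≠ reg n) (h3 : reg x ≠ reg y) (h4 : P n x) (h5 : P n y) (h6 : ¬ P x y)
    (h7 : 0 < ω x) (h8 : 0 < ω y) : 0 < splE reg P ω n := by
  classical
  unfold splE
  have hnn : ∀ x' y', 0 ≤ if reg x' ≠ reg n ∧ reg y' ≠ reg n ∧ reg x' ≠ reg y' ∧ P n x' ∧
      P n y' ∧ ¬ P x' y' then ω x' * ω y' else 0 := by
    intro x' y'
    split_ifs
    · exact mul_nonneg (h x') (h y')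
    · exact le_refl _
  refine lt_of_lt_of_le ?_ (Finset.single_le_sum (f := fun x' => ∑ y', if reg x' ≠ reg n ∧
    reg y' ≠ reg n ∧ reg x' ≠ reg y' ∧ P n x' ∧ P n y' ∧ ¬ P x' y' then ω x' * ω y' else 0)
    (fun x' _ => Finset.sum_nonneg fun y' _ => hnn x' y') (Finset.mem_univ x))
  refine lt_of_lt_of_le ?_ (Finset.single_le_sum (f := fun y' => if reg x ≠ reg n ∧
    reg y' ≠ reg n ∧ reg x ≠ reg y' ∧ P n x ∧ P n y' ∧ ¬ P x y' then ω x * ω y' else 0)
    (fun y' _ => hnn x y') (Finset.mem_univ y))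
  rw [if_pos ⟨h1, h2, h3, h4, h5, h6⟩]
  exact mul_pos h7 h8

variable {reg P}

omit [Fintype N] in
theorem splAlt_neg {ω : N → ℝ} (hA : splAlt reg P ω) : splAlt reg (fun m n => ¬ P m n) ω := by
  intro x₁ x₂ x₃ x₄ p1 p2 p3 p4 r1 r2 r3 r4 h1 h2 h3 h4
  exact hA x₄ x₁ x₂ x₃ p4 p1 p2 p3 r4 r1 r2 r3 (not_not.1 h4) h1 (not_not.1 h2) h3

/-- (a): not both types of mixed triangles at a vertex -/
theorem spl_both (hs : ∀ m n, P m n → P n m) {ω : N → ℝ} (h : ∀ n, 0 ≤ ω n)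
    (hA : splAlt reg P ω) {n : N} (hn : 0 < ω n) (h1 : splE reg P ω n ≠ 0)
    (h2 : splE reg (fun m n => ¬ P m n) ω n ≠ 0) : False := by
  obtain ⟨a, b, ra, rb, rab, pa, pb, pab, wa, wb⟩ := splE_ne reg P h h1
  obtain ⟨c, d, rc, rd, rcd, pc, pd, pcd, wc, wd⟩ := splE_ne reg _ h h2
  have pcd' : P c d := not_not.1 pcd
  have hs' : ∀ {m n}, ¬ P m n → ¬ P n m := fun hh h' => hh (hs _ _ h')
  have key : ∀ c d, reg c ≠ reg n → reg d ≠ reg n → reg c ≠ reg d → ¬ P n c → ¬ P n d → P c d →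
      0 < ω c → 0 < ω d → reg a ≠ reg d → reg b ≠ reg c → False := by
    intro c d rc rd rcd pc pd pcd wc wd h3 h4
    by_cases h5 : P a d
    · by_cases h6 : P b c
      · exact hA b c n a wb wc hn wa h4 rc ra.symm rab h6 (hs' pc) pa pab
      · exact hA n b c d hn wb wc wd rb.symm h4 rcd rd pb h6 pcd (hs' pd)
    · exact hA n a d c hn wa wd wc ra.symm h3 rcd.symm rc pa h5 (hs _ _ pcd) (hs' pc)
  by_cases h3 : reg a = reg d
  · refine key d c rd rc rcd.symm pd pc (hs _ _ pcd') wd wc ?_ ?_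
    · rw [h3]
      exact rcd.symm
    · rw [← h3]
      exact rab.symm
  · by_cases h4 : reg b = reg c
    · refine key d c rd rc rcd.symm pd pc (hs _ _ pcd') wd wc ?_ ?_
      · rw [← h4]
        exact rab
      · rw [h4]
        exact rcd
    · exact key c d rc rd rcd pc pd pcd' wc wd h3 h4

/-- an `R`-partner of a vertex with `e_L > 0` has `e_R > 0` -/
theorem spl_partner (hs : ∀ m n, P m n → P n m) {ω : N → ℝ} (h : ∀ n, 0 ≤ ω n)
    (hA : splAlt reg P ω) {n x : N} (hn : 0 < ω n) (hx : 0 < ω x) (hr : reg x ≠ reg n)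
    (hP : P n x) (h0 : splE reg P ω x = 0) : splE reg (fun m n => ¬ P m n) ω n = 0 := by
  by_contra hcon
  obtain ⟨c, d, rc, rd, rcd, pc, pd, pcd, wc, wd⟩ := splE_ne reg _ h hcon
  have pcd' : P c d := not_not.1 pcd
  have hs' : ∀ {m n}, ¬ P m n → ¬ P n m := fun hh h' => hh (hs _ _ h')
  have key : ∀ c d, reg c ≠ reg n → reg d ≠ reg n → reg c ≠ reg d → ¬ P n c → ¬ P n d → P c d →
      0 < ω c → 0 < ω d → reg d ≠ reg x → False := by
    intro c d rc rd rcd pc pd pcd wc wd h3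
    by_cases h5 : P d x
    · have := splE_pos reg P h hr.symm h3 rd.symm (hs _ _ hP) (hs _ _ h5) pd hn wd
      rw [h0] at this
      exact lt_irrefl _ this
    · exact hA x n c d hx hn wc wd hr rc.symm rcd h3 (hs _ _ hP) pc pcd h5
  by_cases h3 : reg d = reg x
  · refine key d c rd rc rcd.symm pd pc (hs _ _ pcd') wd wc ?_
    rw [← h3]
    exact rcd
  · exact key c d rc rd rcd pc pd pcd' wc wd h3

/-- if the part of type `P` vanishes, every vertex of `M_P` has a partner in `M_P` -/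
theorem spl_step {ω : N → ℝ} (h : ∀ n, 0 ≤ ω n) {μ : ℝ} (hμ : 0 < μ) (hmax : ∀ n, ω n ≤ μ)
    (hz : ∀ n, splA reg P ω n = 0) {n : N} (hn : ω n = μ) (hn' : splE reg P ω n = 0) :
    ∃ x, ω x = μ ∧ splE reg P ω x = 0 ∧ reg x ≠ reg n ∧ P n x := by
  classical
  have h1 := hz n
  unfold splA at h1
  rw [hn, hn', sub_zero, max_eq_right hμ.le, mul_eq_zero] at h1
  rcases h1 with h1 | h1
  · exact absurd h1 hμ.ne'
  rw [Finset.prod_eq_zero_iff] at h1
  obtain ⟨x, -, hx⟩ := h1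
  split_ifs at hx with hc
  · have h2 : μ - (ω x - splE reg P ω x) ≤ 0 := by
      rw [← hx]
      exact le_max_right _ _
    have h3 := hmax x
    have h4 := splE_nonneg reg P h x
    exact ⟨x, by linarith, by linarith, hc.1, hc.2⟩
  · exact absurd hx one_ne_zero

/-- partners of different types lie in the same region -/
theorem spl_region (hs : ∀ m n, P m n → P n m) {ω : N → ℝ} (h : ∀ n, 0 ≤ ω n) {n x y : N}
    (hn : 0 < ω n) (hx : 0 < ω x) (hy : 0 < ω y) (hxn : reg x ≠ reg n) (hyn : reg y ≠ reg n)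
    (hPx : P n x) (hPy : ¬ P n y) (h0 : splE reg P ω x = 0)
    (h0' : splE reg (fun m n => ¬ P m n) ω y = 0) : reg x = reg y := by
  by_contra hne
  by_cases h1 : P x y
  · have := splE_pos reg P h hxn.symm (Ne.symm hne) hyn.symm (hs _ _ hPx) h1 hPy hn hy
    rw [h0] at this
    exact lt_irrefl _ this
  · have := splE_pos reg (fun m n => ¬ P m n) h hyn.symm hne hxn.symm
      (fun h' => hPy (hs _ _ h')) (fun h' => h1 (hs _ _ h')) (fun h' => h' hPx) hn hx
    rw [h0'] at this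
    exact lt_irrefl _ this

theorem spl_nonvanishing (hs : ∀ m n, P m n → P n m) {ω : N → ℝ} (h : ∀ n, 0 ≤ ω n)
    (hpos : ∃ n, 0 < ω n) (hA : splAlt reg P ω) :
    ∃ n, 0 < splA reg P ω n ∨ 0 < splA reg (fun m n => ¬ P m n) ω n := by
  classical
  by_contra hcon
  push Not at hcon
  have hs' : ∀ m n, ¬ P m n → ¬ P n m := fun m n hh h' => hh (hs _ _ h')
  have hz1 : ∀ n, splA reg P ω n = 0 := fun n =>
    le_antisymm (hcon n).1 (splA_nonneg reg P ω n)
  have hz2 : ∀ n, splA reg (fun m n => ¬ P m n) ω n = 0 := fun n =>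
    le_antisymm (hcon n).2 (splA_nonneg reg _ ω n)
  obtain ⟨n₁, hn₁⟩ := hpos
  obtain ⟨n₀, -, hn₀⟩ := Finset.exists_max_image Finset.univ ω ⟨n₁, Finset.mem_univ _⟩
  have hmax : ∀ n, ω n ≤ ω n₀ := fun n => hn₀ n (Finset.mem_univ n)
  have hμ : 0 < ω n₀ := lt_of_lt_of_le hn₁ (hmax n₁)
  have hA' := splAlt_neg hA
  -- all vertices of the argmax have `e_R = e_L = 0`
  have hzero : ∀ n, ω n = ω n₀ → splE reg P ω n = 0 ∧ splE reg (fun m n => ¬ P m n) ω n = 0 := by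
    intro n hn
    have hnpos : 0 < ω n := by
      rw [hn]
      exact hμ
    by_cases h1 : splE reg P ω n = 0
    · refine ⟨h1, ?_⟩
      obtain ⟨x, hx1, hx2, hx3, hx4⟩ := spl_step h hμ hmax hz1 hn h1
      exact spl_partner hs h hA hnpos (by rw [hx1]; exact hμ) hx3 hx4 hx2
    · have h2 : splE reg (fun m n => ¬ P m n) ω n = 0 := by
        by_contra h2
        exact spl_both hs h hA hnpos h1 h2
      refine ⟨?_, h2⟩
      obtain ⟨x, hx1, hx2, hx3, hx4⟩ := spl_step h hμ hmax hz2 hn h2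
      have h3 := spl_partner hs' h hA' hnpos (by rw [hx1]; exact hμ) hx3 hx4 hx2
      have h4 : (fun m n => ¬ ¬ P m n) = P := by
        funext m n
        exact propext not_not
      rw [h4] at h3
      exact h3
  obtain ⟨n, hn, hmin⟩ := Finset.exists_min_image (Finset.univ.filter fun n => ω n = ω n₀)
    (fun n => (Finset.univ.filter fun u => ω u = ω n₀ ∧ reg u ≠ reg n ∧ P n u).card)
    ⟨n₀, by simp⟩
  rw [Finset.mem_filter] at hn
  have hn := hn.2
  obtain ⟨u, hu1, hu2, hu3, hu4⟩ := spl_step h hμ hmax hz1 hn (hzero n hn).1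
  obtain ⟨x, hx1, hx2, hx3, hx4⟩ := spl_step h hμ hmax hz2 hu1 (hzero u hu1).2
  have hnpos : 0 < ω n := by rw [hn]; exact hμ
  have hupos : 0 < ω u := by rw [hu1]; exact hμ
  have hxpos : 0 < ω x := by rw [hx1]; exact hμ
  have hreg : reg n = reg x := spl_region hs h hupos hnpos hxpos hu3.symm hx3 (hs _ _ hu4) hx4
    (hzero n hn).1 (hzero x hx1).2
  have hcard := hmin x (by rw [Finset.mem_filter]; exact ⟨Finset.mem_univ _, hx1⟩)
  obtain ⟨y, hy1, hy2⟩ : ∃ y, (ω y = ω n₀ ∧ reg y ≠ reg x ∧ P x y) ∧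
      ¬ (ω y = ω n₀ ∧ reg y ≠ reg n ∧ P n y) := by
    by_contra hno
    push Not at hno
    have hsub : (Finset.univ.filter fun u => ω u = ω n₀ ∧ reg u ≠ reg x ∧ P x u) ⊂
        (Finset.univ.filter fun u => ω u = ω n₀ ∧ reg u ≠ reg n ∧ P n u) := by
      rw [Finset.ssubset_iff_of_subset]
      · refine ⟨u, ?_, ?_⟩
        · rw [Finset.mem_filter]
          exact ⟨Finset.mem_univ _, hu1, hu3, hu4⟩
        · rw [Finset.mem_filter]
          rintro ⟨-, -, -, h5⟩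
          exact hx4 (hs _ _ h5)
      · intro y hy
        rw [Finset.mem_filter] at hy ⊢
        exact ⟨Finset.mem_univ _, hno y ⟨hy.2.1, hy.2.2.1, hy.2.2.2⟩⟩
    exact absurd (Finset.card_lt_card hsub) (not_lt.2 hcard)
  have hyn : reg y ≠ reg n := by
    rw [hreg]
    exact hy1.2.1
  have hPny : ¬ P n y := fun h' => hy2 ⟨hy1.1, hyn, h'⟩
  have hypos : 0 < ω y := by rw [hy1.1]; exact hμ
  exact hA n u x y hnpos hupos hxpos hypos hu3.symm hx3.symm hy1.2.1.symm hyn hu4 hx4 hy1.2.2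
    (fun h' => hPny (hs _ _ h'))

end spl

theorem splitting {N : Type*} [Fintype N] [DecidableEq N] (reg : N → ℕ) (Rc : N → N → Prop)
    (hs : ∀ m n, Rc m n → Rc n m) :
    ∃ α β : (N → ℝ) → N → ℝ, (Continuous α) ∧ (Continuous β) ∧
      (∀ ω n, 0 ≤ α ω n) ∧ (∀ ω n, 0 ≤ β ω n) ∧
      (∀ ω, (∀ n, 0 ≤ ω n) → ∀ n, 0 < α ω n → 0 < ω n) ∧
      (∀ ω, (∀ n, 0 ≤ ω n) → ∀ n, 0 < β ω n → 0 < ω n) ∧
      (∀ ω, (∀ n, 0 ≤ ω n) → ∀ m n, 0 < α ω m → 0 < α ω n → reg m ≠ reg n → ¬ Rc m n) ∧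
      (∀ ω, (∀ n, 0 ≤ ω n) → ∀ m n, 0 < β ω m → 0 < β ω n → reg m ≠ reg n → Rc m n) ∧
      (∀ ω, (∀ n, 0 ≤ ω n) → (∃ n, 0 < ω n) →
        (∀ x₁ x₂ x₃ x₄, 0 < ω x₁ → 0 < ω x₂ → 0 < ω x₃ → 0 < ω x₄ → reg x₁ ≠ reg x₂ →
          reg x₂ ≠ reg x₃ → reg x₃ ≠ reg x₄ → reg x₄ ≠ reg x₁ →
          Rc x₁ x₂ → ¬ Rc x₂ x₃ → Rc x₃ x₄ → ¬ Rc x₄ x₁ → False) →
        ∃ n, 0 < α ω n ∨ 0 < β ω n) := by
  have hs' : ∀ m n, ¬ Rc m n → ¬ Rc n m := fun m n hh h' => hh (hs _ _ h')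
  refine ⟨splA reg Rc, splA reg (fun m n => ¬ Rc m n), splA_cont reg _, splA_cont reg _,
    splA_nonneg reg _, splA_nonneg reg _, fun ω h n hn => splA_supp reg _ h n hn,
    fun ω h n hn => splA_supp reg _ h n hn,
    fun ω _ m n hm hn hr => splA_clique reg _ hs hm hn hr,
    fun ω _ m n hm hn hr => not_not.1 (splA_clique reg _ hs' hm hn hr),
    fun ω h hpos hA => spl_nonvanishing hs h hpos hA⟩

end Pool.Agent.Lib.MP_8fca14_co.Five
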