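import Pool.Agent.Lib.MP_8fca14_co.Five.NPT
import Pool.Agent.Lib.MP_8fca14_co.Five.LM
import Pool.Agent.Lib.MP_8fca14_co.Five.SPL
import Pool.Agent.Lib.MP_8fca14_co.Five.NES
import Pool.Agent.Lib.MP_8fca14_co.Five.FIX
import Pool.Agent.Lib.MP_8fca14_co.Five.CNT

set_option autoImplicit false

/-!
# COR: three points of the line and two more points
-/

namespace Pool.Agent.Lib.MP_8fca14_co.Five

open Set
open Pool.Agent.Lib.MP_8fca14_co.Six

/-- the node lies in its region and is missed -/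
def InReg {V : Type*} (a b : V → ℝ) (t : ℕ → ℝ) (n : V × Fin 4) : Prop :=
  t (n.2 : ℕ) < a n.1 ∧ b n.1 < t ((n.2 : ℕ) + 1)

lemma dis_of_reg {V : Type*} {a b : V → ℝ} {t : ℕ → ℝ} (ht : Monotone t) {m n : V × Fin 4}
    (hm : InReg a b t m) (hn : InReg a b t n) (h : m.2 ≠ n.2) : Dis a b m.1 n.1 := by
  have h1 : (m.2 : ℕ) ≠ (n.2 : ℕ) := fun h2 => h (Fin.ext h2)
  rcases Nat.lt_or_gt_of_ne h1 with h2 | h2
  · left
    have h3 : t ((m.2 : ℕ) + 1) ≤ t (n.2 : ℕ) := ht h2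
    linarith [hm.2, hn.1]
  · right
    have h3 : t ((n.2 : ℕ) + 1) ≤ t (m.2 : ℕ) := ht h2
    linarith [hn.2, hm.1]

/-- Lemma M for one of the two sides -/
lemma side {V : Type*} [Fintype V] [DecidableEq V] {a b : V → ℝ} {RR : V → V → Prop}
    {K : Set Pl} {L : V → Set Pl}
    (H1 : ∀ σ : Finset V, σ.Nonempty → Chain a b σ →
      (∀ u ∈ σ, ∀ v ∈ σ, u ≠ v → RR u v) → ∃ z ∈ K, ∀ v ∈ σ, z ∈ L v)
    {t : ℕ → ℝ} (ht : Monotone t) {u : V → Pl} {w : Pl}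
    (hnear : ∀ v, ∀ z ∈ L v ∩ K, ‖u v‖ ^ 2 ≤ inner ℝ (z - w) (u v))
    (S : Finset (V × Fin 4)) (hS : ∀ n ∈ S, InReg a b t n) (hSu : ∀ n ∈ S, u n.1 ≠ 0)
    (hRR : ∀ m ∈ S, ∀ n ∈ S, m.2 ≠ n.2 → RR m.1 n.1)
    (y : V × Fin 4 → ℝ) (hy : ∀ n, 0 ≤ y n) (hyS : ∀ n, 0 < y n → n ∈ S) (hy0 : ∃ n, 0 < y n)
    (h3 : ∃ p ∈ S, ∃ q ∈ S, ∃ r ∈ S, p.2 ≠ q.2 ∧ p.2 ≠ r.2 ∧ q.2 ≠ r.2)
    (hsum : ∑ n, y n • u n.1 = 0) :
    ∃ c : Fin 4, ∑ i, ∑ v, y (v, i) * ‖u v‖ < 2 * ∑ v, y (v, c) * ‖u v‖ := by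
  have hout : ∀ n, n ∉ S → y n = 0 := by
    intro n hn
    by_contra hne
    exact hn (hyS n (lt_of_le_of_ne (hy n) (Ne.symm hne)))
  have hcl : ∀ {m n : V × Fin 4}, ((m.2 : ℕ) ≠ (n.2 : ℕ)) ↔ m.2 ≠ n.2 := by
    intro m n
    exact not_congr Fin.val_inj
  obtain ⟨c, hc⟩ := lemma_m S (fun n => u n.1) (fun n => (n.2 : ℕ)) y hSu (fun n _ => hy n)
    (by
      obtain ⟨n, hn⟩ := hy0
      exact ⟨n, hyS n hn, hn⟩)
    (by
      obtain ⟨p, hp, q, hq, r, hr, h1, h2, h3⟩ := h3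
      exact ⟨p, hp, q, hq, r, hr, hcl.2 h1, hcl.2 h2, hcl.2 h3⟩)
    (by
      intro p hp q hq r hr hpq hpr hqr
      have hpq' := hcl.1 hpq
      have hpr' := hcl.1 hpr
      have hqr' := hcl.1 hqr
      obtain ⟨z, hzK, hz⟩ := H1 {p.1, q.1, r.1} ⟨p.1, by simp⟩
        (by
          intro x hx x' hx' hne
          simp only [Finset.mem_insert, Finset.mem_singleton] at hx hx'
          rcases hx with rfl | rfl | rfl <;> rcases hx' with rfl | rfl | rfl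
          · exact absurd rfl hne
          · exact dis_of_reg ht (hS p hp) (hS q hq) hpq'
          · exact dis_of_reg ht (hS p hp) (hS r hr) hpr'
          · exact dis_of_reg ht (hS q hq) (hS p hp) hpq'.symm
          · exact absurd rfl hne
          · exact dis_of_reg ht (hS q hq) (hS r hr) hqr'
          · exact dis_of_reg ht (hS r hr) (hS p hp) hpr'.symm
          · exact dis_of_reg ht (hS r hr) (hS q hq) hqr'.symm
          · exact absurd rfl hne)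
        (by
          intro x hx x' hx' hne
          simp only [Finset.mem_insert, Finset.mem_singleton] at hx hx'
          rcases hx with rfl | rfl | rfl <;> rcases hx' with rfl | rfl | rfl
          · exact absurd rfl hne
          · exact hRR p hp q hq hpq'
          · exact hRR p hp r hr hpr'
          · exact hRR q hq p hp hpq'.symm
          · exact absurd rfl hne
          · exact hRR q hq r hr hqr'
          · exact hRR r hr p hp hpr'.symm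
          · exact hRR r hr q hq hqr'.symm
          · exact absurd rfl hne)
      have hpos : ∀ n ∈ S, n.1 ∈ ({p.1, q.1, r.1} : Finset V) → 0 < inner ℝ (z - w) (u n.1) := by
        intro n hn hn2
        have h1 := hnear n.1 z ⟨hz n.1 hn2, hzK⟩
        have h2 : 0 < ‖u n.1‖ := norm_pos_iff.2 (hSu n hn)
        have h3 : 0 < ‖u n.1‖ ^ 2 := by positivity
        linarith
      exact ⟨z - w, hpos p hp (by simp), hpos q hq (by simp), hpos r hr (by simp)⟩)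
    (by
      rw [← hsum]
      refine Finset.sum_subset (Finset.subset_univ S) ?_
      intro n _ hn
      rw [hout n hn, zero_smul])
  have hfil : ∀ p : ℕ → Prop, ∀ [DecidablePred p],
      ∑ n ∈ S.filter (fun n => p (n.2 : ℕ)), y n * ‖u n.1‖ =
      ∑ n ∈ Finset.univ.filter (fun n : V × Fin 4 => p (n.2 : ℕ)), y n * ‖u n.1‖ := by
    intro p _
    refine Finset.sum_subset ?_ ?_
    · intro n hn
      rw [Finset.mem_filter] at hn ⊢
      exact ⟨Finset.mem_univ n, hn.2⟩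
    · intro n hn hn2
      rw [Finset.mem_filter] at hn hn2
      have : n ∉ S := fun h => hn2 ⟨h, hn.2⟩
      rw [hout n this, zero_mul]
  have e1 := hfil (fun k => k ≠ c)
  have e2 := hfil (fun k => k = c)
  rw [e1, e2] at hc
  have hsplit : ∑ n ∈ Finset.univ.filter (fun n : V × Fin 4 => (n.2 : ℕ) = c), y n * ‖u n.1‖ +
      ∑ n ∈ Finset.univ.filter (fun n : V × Fin 4 => (n.2 : ℕ) ≠ c), y n * ‖u n.1‖ =
      ∑ n : V × Fin 4, y n * ‖u n.1‖ := Finset.sum_filter_add_sum_filter_not _ _ _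
  have htot : ∑ n : V × Fin 4, y n * ‖u n.1‖ = ∑ i, ∑ v, y (v, i) * ‖u v‖ :=
    Fintype.sum_prod_type_right _
  have hnn : 0 ≤ ∑ n ∈ Finset.univ.filter (fun n : V × Fin 4 => (n.2 : ℕ) ≠ c), y n * ‖u n.1‖ :=
    Finset.sum_nonneg fun n _ => mul_nonneg (hy n) (norm_nonneg _)
  by_cases hc4 : c < 4
  · refine ⟨⟨c, hc4⟩, ?_⟩
    have e3 : ∑ n ∈ Finset.univ.filter (fun n : V × Fin 4 => (n.2 : ℕ) = c), y n * ‖u n.1‖ =
        ∑ v, y (v, ⟨c, hc4⟩) * ‖u v‖ := by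
      rw [Finset.sum_filter, Fintype.sum_prod_type]
      refine Finset.sum_congr rfl fun v _ => ?_
      rw [Finset.sum_eq_single (⟨c, hc4⟩ : Fin 4)]
      · simp
      · intro i _ hi
        have : (i : ℕ) ≠ c := fun h => hi (Fin.ext h)
        simp [this]
      · intro h
        exact absurd (Finset.mem_univ _) h
    rw [← htot, ← hsplit, ← e3]
    linarith
  · exfalso
    have e3 : ∑ n ∈ Finset.univ.filter (fun n : V × Fin 4 => (n.2 : ℕ) = c), y n * ‖u n.1‖ = 0 := by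
      refine Finset.sum_eq_zero fun n hn => ?_
      rw [Finset.mem_filter] at hn
      exact absurd (hn.2 ▸ n.2.2) hc4
    linarith

lemma two_of_four (A : Fin 4 → ℝ) (e : ℝ) (he : 0 < e) (h : ∀ i, A i = 0 ∨ A i = e)
    (hs : ∑ i, A i = 2 * e) : ∃ i j, i ≠ j ∧ A i = e ∧ A j = e := by
  rw [Fin.sum_univ_four] at hs
  rcases h 0 with h0 | h0 <;> rcases h 1 with h1 | h1 <;> rcases h 2 with h2 | h2 <;>
    rcases h 3 with h3 | h3 <;>
    first
    | exact ⟨0, 1, by decide, h0, h1⟩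
    | exact ⟨0, 2, by decide, h0, h2⟩
    | exact ⟨0, 3, by decide, h0, h3⟩
    | exact ⟨1, 2, by decide, h1, h2⟩
    | exact ⟨1, 3, by decide, h1, h3⟩
    | exact ⟨2, 3, by decide, h2, h3⟩
    | (exfalso; linarith)

/-- the final contradiction on one side: both classes of `y` have mass `e`, and there is one more
member which is compatible with all of them -/
lemma side_contra {V : Type*} [Fintype V] [DecidableEq V] {a b : V → ℝ} {RR : V → V → Prop}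
    {K : Set Pl} {L : V → Set Pl}
    (H1 : ∀ σ : Finset V, σ.Nonempty → Chain a b σ →
      (∀ u ∈ σ, ∀ v ∈ σ, u ≠ v → RR u v) → ∃ z ∈ K, ∀ v ∈ σ, z ∈ L v)
    {t : ℕ → ℝ} (ht : Monotone t) {u : V → Pl} {w : Pl}
    (hnear : ∀ v, ∀ z ∈ L v ∩ K, ‖u v‖ ^ 2 ≤ inner ℝ (z - w) (u v))
    (y : V × Fin 4 → ℝ) (hy : ∀ n, 0 ≤ y n) (hyR : ∀ n, 0 < y n → InReg a b t n)
    (hyu : ∀ n, 0 < y n → u n.1 ≠ 0)
    (hRR : ∀ m n, 0 < y m → 0 < y n → m.2 ≠ n.2 → RR m.1 n.1)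
    (hsum : ∑ n, y n • u n.1 = 0) {e : ℝ} (he : 0 < e)
    (hA : ∀ i, ∑ v, y (v, i) * ‖u v‖ = 0 ∨ ∑ v, y (v, i) * ‖u v‖ = e)
    (hA2 : ∑ i, ∑ v, y (v, i) * ‖u v‖ = 2 * e)
    (q : V × Fin 4) (hq : InReg a b t q) (hqu : u q.1 ≠ 0)
    (hq0 : ∑ v, y (v, q.2) * ‖u v‖ = 0)
    (hqR : ∀ n, 0 < y n → RR n.1 q.1 ∧ RR q.1 n.1) : False := by
  classical
  obtain ⟨i, j, hij, hi, hj⟩ := two_of_four _ e he hA hA2
  have hex : ∀ i : Fin 4, ∑ v, y (v, i) * ‖u v‖ = e → ∃ v, 0 < y (v, i) := by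
    intro i hi
    by_contra hcon
    push Not at hcon
    have : ∑ v, y (v, i) * ‖u v‖ = 0 := Finset.sum_eq_zero fun v _ => by
      rw [le_antisymm (hcon v) (hy _), zero_mul]
    linarith
  obtain ⟨vi, hvi⟩ := hex i hi
  obtain ⟨vj, hvj⟩ := hex j hj
  have hqi : i ≠ q.2 := by
    rintro rfl
    linarith
  have hqj : j ≠ q.2 := by
    rintro rfl
    linarith
  have hyq : y q = 0 := by
    have h1 := (Finset.sum_eq_zero_iff_of_nonneg
      (fun v _ => mul_nonneg (hy (v, q.2)) (norm_nonneg (u v)))).1 hq0 q.1 (Finset.mem_univ _)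
    rcases mul_eq_zero.1 h1 with h | h
    · exact h
    · exact absurd (norm_eq_zero.1 h) hqu
  set S : Finset (V × Fin 4) := insert q (Finset.univ.filter fun n => 0 < y n) with hS
  have hmem : ∀ n, n ∈ S ↔ n = q ∨ 0 < y n := by
    intro n
    rw [hS, Finset.mem_insert, Finset.mem_filter]
    simp
  obtain ⟨c, hc⟩ := side H1 ht hnear S
    (by
      intro n hn
      rcases (hmem n).1 hn with rfl | h
      · exact hq
      · exact hyR n h)
    (by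
      intro n hn
      rcases (hmem n).1 hn with rfl | h
      · exact hqu
      · exact hyu n h)
    (by
      intro m hm n hn hmn
      rcases (hmem m).1 hm with h1 | h1 <;> rcases (hmem n).1 hn with h2 | h2
      · exact absurd (by rw [h1, h2]) hmn
      · rw [h1]; exact (hqR n h2).2
      · rw [h2]; exact (hqR m h1).1
      · exact hRR m n h1 h2 hmn)
    y hy (fun n hn => (hmem n).2 (Or.inr hn)) ⟨_, hvi⟩
    ⟨(vi, i), (hmem _).2 (Or.inr hvi), (vj, j), (hmem _).2 (Or.inr hvj), q,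
      (hmem _).2 (Or.inl rfl), hij, hqi, hqj⟩ hsum
  rw [hA2] at hc
  rcases hA c with h | h <;> linarith

theorem five_core {V : Type*} [Fintype V] [DecidableEq V] (a b : V → ℝ)
    (hab : ∀ v, a v ≤ b v) (Rc : V → V → Prop) (hs : ∀ u v, Rc u v → Rc v u)
    (L R : V → Set Pl) (KL KR : Set Pl) (hL : ∀ v, Convex ℝ (L v)) (hR : ∀ v, Convex ℝ (R v))
    (hLc : ∀ v, IsClosed (L v)) (hRc : ∀ v, IsClosed (R v))
    (hKL : Convex ℝ KL) (hKR : Convex ℝ KR) (hKLc : IsCompact KL) (hKRc : IsCompact KR)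
    (hKL0 : KL.Nonempty) (hKR0 : KR.Nonempty)
    (H1L : ∀ σ : Finset V, σ.Nonempty → Chain a b σ →
      (∀ u ∈ σ, ∀ v ∈ σ, u ≠ v → ¬ Rc u v) → ∃ z ∈ KL, ∀ v ∈ σ, z ∈ L v)
    (H1R : ∀ σ : Finset V, σ.Nonempty → Chain a b σ →
      (∀ u ∈ σ, ∀ v ∈ σ, u ≠ v → Rc u v) → ∃ z ∈ KR, ∀ v ∈ σ, z ∈ R v)
    (H4 : ∀ x₁ x₂ x₃ x₄, Dis a b x₁ x₂ → Dis a b x₂ x₃ → Dis a b x₃ x₄ → Dis a b x₄ x₁ →
      Rc x₁ x₂ → ¬ Rc x₂ x₃ → Rc x₃ x₄ → ¬ Rc x₄ x₁ → False) :
    ∃ T : Finset ℝ, T.card ≤ 3 ∧ ∃ wL ∈ KL, ∃ wR ∈ KR,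
      ∀ v, (∃ t ∈ T, a v ≤ t ∧ t ≤ b v) ∨ wL ∈ L v ∨ wR ∈ R v := by
  classical
  -- nearest points
  have hLne : ∀ v, (L v ∩ KL).Nonempty := by
    intro v
    obtain ⟨z, hz, hz2⟩ := H1L {v} ⟨v, by simp⟩
      (by
        intro x hx x' hx' hne
        rw [Finset.mem_singleton] at hx hx'
        exact absurd (hx.trans hx'.symm) hne)
      (by
        intro x hx x' hx' hne
        rw [Finset.mem_singleton] at hx hx'
        exact absurd (hx.trans hx'.symm) hne)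
    exact ⟨z, hz2 v (by simp), hz⟩
  have hRne : ∀ v, (R v ∩ KR).Nonempty := by
    intro v
    obtain ⟨z, hz, hz2⟩ := H1R {v} ⟨v, by simp⟩
      (by
        intro x hx x' hx' hne
        rw [Finset.mem_singleton] at hx hx'
        exact absurd (hx.trans hx'.symm) hne)
      (by
        intro x hx x' hx' hne
        rw [Finset.mem_singleton] at hx hx'
        exact absurd (hx.trans hx'.symm) hne)
    exact ⟨z, hz2 v (by simp), hz⟩
  have hnL := fun v => exists_nearest (L v ∩ KL) (hKLc.inter_left (hLc v)) ((hL v).inter hKL)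
    (hLne v)
  have hnR := fun v => exists_nearest (R v ∩ KR) (hKRc.inter_left (hRc v)) ((hR v).inter hKR)
    (hRne v)
  choose πL hπL mL nL using hnL
  choose πR hπR mR nR using hnR
  obtain ⟨α, β, hα, hβ, α0, β0, αs, βs, αc, βc, hne⟩ :=
    splitting (N := V × Fin 4) (fun n => (n.2 : ℕ)) (fun m n => Rc m.1 n.1)
      (fun m n h => hs _ _ h)
  obtain ⟨t, wL, wR, e, hwL, hwR, ht, ht0, ht4, hfix⟩ := fixed_point a b hab KL KR hKL hKR hKLc
    hKRc hKL0 hKR0 πL πR hπL hπR (fun v x => (mL v x).2) (fun v x => (mR v x).2) α β hα hβ α0 β0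
    αs βs
  refine ⟨{t 1, t 2, t 3}, Finset.card_le_three, wL, hwL, wR, hwR, ?_⟩
  by_contra hcon
  push Not at hcon
  obtain ⟨v₀, hv1, hv2, hv3⟩ := hcon
  set ω := weight a b t (fun v => ‖πL v wL - wL‖) (fun v => ‖πR v wR - wR‖) with hωdef
  obtain ⟨hfL, hfR, hfe⟩ := hfix ω hωdef
  have hω0 : ∀ n, 0 ≤ ω n := by
    intro n
    exact mul_nonneg (mul_nonneg (le_max_left _ _) (le_max_left _ _))
      (mul_nonneg (norm_nonneg _) (norm_nonneg _))
  -- positive weight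
  have hωpos : ∀ n, 0 < ω n → InReg a b t n ∧ πL n.1 wL - wL ≠ 0 ∧ πR n.1 wR - wR ≠ 0 := by
    intro n hn
    have h1 : ω n = max 0 (a n.1 - t (n.2 : ℕ)) * max 0 (t ((n.2 : ℕ) + 1) - b n.1) *
      (‖πL n.1 wL - wL‖ * ‖πR n.1 wR - wR‖) := rfl
    have hn' := hn.ne'
    rw [h1, mul_ne_zero_iff, mul_ne_zero_iff, mul_ne_zero_iff] at hn'
    obtain ⟨⟨h2, h3⟩, h4, h5⟩ := hn'
    refine ⟨⟨?_, ?_⟩, norm_ne_zero_iff.1 h4, norm_ne_zero_iff.1 h5⟩
    · by_contra hc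
      exact h2 (max_eq_left (by linarith))
    · by_contra hc
      exact h3 (max_eq_left (by linarith))
  have hωex : ∃ n, 0 < ω n := by
    have hL0 : 0 < ‖πL v₀ wL - wL‖ := by
      rw [norm_pos_iff, sub_ne_zero]
      intro h
      exact hv2 (h ▸ (mL v₀ wL).1)
    have hR0 : 0 < ‖πR v₀ wR - wR‖ := by
      rw [norm_pos_iff, sub_ne_zero]
      intro h
      exact hv3 (h ▸ (mR v₀ wR).1)
    have hpos : ∀ i : Fin 4, t (i : ℕ) < a v₀ → b v₀ < t ((i : ℕ) + 1) → 0 < ω (v₀, i) := by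
      intro i h1 h2
      exact mul_pos (mul_pos (lt_max_of_lt_right (by linarith)) (lt_max_of_lt_right (by linarith)))
        (mul_pos hL0 hR0)
    have g0 := ht0 v₀
    have g4 := ht4 v₀
    by_cases c1 : a v₀ ≤ t 1
    · have d1 := hv1 (t 1) (by simp) c1
      exact ⟨(v₀, 0), hpos 0 g0 d1⟩
    push Not at c1
    by_cases c2 : a v₀ ≤ t 2
    · have d2 := hv1 (t 2) (by simp) c2
      exact ⟨(v₀, 1), hpos 1 c1 d2⟩
    push Not at c2
    by_cases c3 : a v₀ ≤ t 3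
    · have d3 := hv1 (t 3) (by simp) c3
      exact ⟨(v₀, 2), hpos 2 c2 d3⟩
    push Not at c3
    exact ⟨(v₀, 3), hpos 3 c3 g4⟩
  have hregne : ∀ {m n : V × Fin 4}, (m.2 : ℕ) ≠ (n.2 : ℕ) → m.2 ≠ n.2 := by
    intro m n h1 h2
    exact h1 (by rw [h2])
  have hdis : ∀ m n : V × Fin 4, 0 < ω m → 0 < ω n → m.2 ≠ n.2 → Dis a b m.1 n.1 :=
    fun m n hm hn h => dis_of_reg ht (hωpos m hm).1 (hωpos n hn).1 h
  have hC4 : ∀ x₁ x₂ x₃ x₄ : V × Fin 4, 0 < ω x₁ → 0 < ω x₂ → 0 < ω x₃ → 0 < ω x₄ →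
      x₁.2 ≠ x₂.2 → x₂.2 ≠ x₃.2 → x₃.2 ≠ x₄.2 → x₄.2 ≠ x₁.2 →
      Rc x₁.1 x₂.1 → ¬ Rc x₂.1 x₃.1 → Rc x₃.1 x₄.1 → ¬ Rc x₄.1 x₁.1 → False := by
    intro x₁ x₂ x₃ x₄ h1 h2 h3 h4 h12 h23 h34 h41 g1 g2 g3 g4
    exact H4 x₁.1 x₂.1 x₃.1 x₄.1 (hdis _ _ h1 h2 h12) (hdis _ _ h2 h3 h23) (hdis _ _ h3 h4 h34)
      (hdis _ _ h4 h1 h41) g1 g2 g3 g4
  obtain ⟨n₀, hn₀⟩ := hne ω hω0 hωex (fun x₁ x₂ x₃ x₄ h1 h2 h3 h4 h12 h23 h34 h41 =>
    hC4 x₁ x₂ x₃ x₄ h1 h2 h3 h4 (hregne h12) (hregne h23) (hregne h34) (hregne h41))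
  have αω := αs ω hω0
  have βω := βs ω hω0
  -- the energies
  set A : Fin 4 → ℝ := fun i => ∑ v, α ω (v, i) * ‖πL v wL - wL‖ with hAdef
  set B : Fin 4 → ℝ := fun i => ∑ v, β ω (v, i) * ‖πR v wR - wR‖ with hBdef
  have hA0 : ∀ i, 0 ≤ A i := fun i =>
    Finset.sum_nonneg fun v _ => mul_nonneg (α0 _ _) (norm_nonneg _)
  have hB0 : ∀ i, 0 ≤ B i := fun i =>
    Finset.sum_nonneg fun v _ => mul_nonneg (β0 _ _) (norm_nonneg _)
  have hAB : ∀ i, A i + B i = e := by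
    intro i
    rw [← hfe i, hAdef, hBdef, ← Finset.sum_add_distrib]
  have hApos : ∀ n, 0 < α ω n → 0 < A n.2 := by
    intro n hn
    have h1 := (hωpos n (αω n hn)).2.1
    have h2 : 0 < α ω n * ‖πL n.1 wL - wL‖ := mul_pos hn (norm_pos_iff.2 h1)
    refine lt_of_lt_of_le h2 ?_
    exact Finset.single_le_sum (f := fun v => α ω (v, n.2) * ‖πL v wL - wL‖)
      (fun v _ => mul_nonneg (α0 _ _) (norm_nonneg _)) (Finset.mem_univ n.1)
  have hBpos : ∀ n, 0 < β ω n → 0 < B n.2 := by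
    intro n hn
    have h1 := (hωpos n (βω n hn)).2.2
    have h2 : 0 < β ω n * ‖πR n.1 wR - wR‖ := mul_pos hn (norm_pos_iff.2 h1)
    refine lt_of_lt_of_le h2 ?_
    exact Finset.single_le_sum (f := fun v => β ω (v, n.2) * ‖πR v wR - wR‖)
      (fun v _ => mul_nonneg (β0 _ _) (norm_nonneg _)) (Finset.mem_univ n.1)
  have hAex : ∀ i, 0 < A i → ∃ v, 0 < α ω (v, i) := by
    intro i hi
    by_contra hcon
    push Not at hcon
    have : A i = 0 := Finset.sum_eq_zero fun v _ => by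
      rw [le_antisymm (hcon v) (α0 _ _), zero_mul]
    linarith
  have hBex : ∀ i, 0 < B i → ∃ v, 0 < β ω (v, i) := by
    intro i hi
    by_contra hcon
    push Not at hcon
    have : B i = 0 := Finset.sum_eq_zero fun v _ => by
      rw [le_antisymm (hcon v) (β0 _ _), zero_mul]
    linarith
  have he : 0 < e := by
    rcases hn₀ with h | h
    · have h1 := hApos n₀ h
      have h2 := hB0 n₀.2
      have h3 := hAB n₀.2
      linarith
    · have h1 := hBpos n₀ h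
      have h2 := hA0 n₀.2
      have h3 := hAB n₀.2
      linarith
  have hnearL : ∀ v, ∀ z ∈ L v ∩ KL, ‖πL v wL - wL‖ ^ 2 ≤ inner ℝ (z - wL) (πL v wL - wL) :=
    fun v z hz => nL v wL z hz
  have hnearR : ∀ v, ∀ z ∈ R v ∩ KR, ‖πR v wR - wR‖ ^ 2 ≤ inner ℝ (z - wR) (πR v wR - wR) :=
    fun v z hz => nR v wR z hz
  have hRRL : ∀ m n : V × Fin 4, 0 < α ω m → 0 < α ω n → m.2 ≠ n.2 → ¬ Rc m.1 n.1 :=
    fun m n hm hn h => αc ω hω0 m n hm hn (fun h2 => h (Fin.ext h2))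
  have hRRR : ∀ m n : V × Fin 4, 0 < β ω m → 0 < β ω n → m.2 ≠ n.2 → Rc m.1 n.1 :=
    fun m n hm hn h => βc ω hω0 m n hm hn (fun h2 => h (Fin.ext h2))
  have hmemα : ∀ n : V × Fin 4, n ∈ Finset.univ.filter (fun n => 0 < α ω n) ↔ 0 < α ω n := by
    intro n
    simp
  have hmemβ : ∀ n : V × Fin 4, n ∈ Finset.univ.filter (fun n => 0 < β ω n) ↔ 0 < β ω n := by
    intro n
    simp
  obtain ⟨hA2, hAs, hBs⟩ := counting A B e he hA0 hB0 hAB
    (by
      rintro ⟨i, j, k, hij, hik, hjk, hi, hj, hk⟩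
      obtain ⟨vi, hvi⟩ := hAex i hi
      obtain ⟨vj, hvj⟩ := hAex j hj
      obtain ⟨vk, hvk⟩ := hAex k hk
      exact side H1L ht hnearL (Finset.univ.filter fun n => 0 < α ω n)
        (fun n hn => (hωpos n (αω n ((hmemα n).1 hn))).1)
        (fun n hn => (hωpos n (αω n ((hmemα n).1 hn))).2.1)
        (fun m hm n hn h => hRRL m n ((hmemα m).1 hm) ((hmemα n).1 hn) h)
        (α ω) (α0 ω) (fun n hn => (hmemα n).2 hn) ⟨_, hvi⟩
        ⟨_, (hmemα _).2 hvi, _, (hmemα _).2 hvj, _, (hmemα _).2 hvk, hij, hik, hjk⟩ hfL)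
    (by
      rintro ⟨i, j, k, hij, hik, hjk, hi, hj, hk⟩
      obtain ⟨vi, hvi⟩ := hBex i hi
      obtain ⟨vj, hvj⟩ := hBex j hj
      obtain ⟨vk, hvk⟩ := hBex k hk
      exact side H1R ht hnearR (Finset.univ.filter fun n => 0 < β ω n)
        (fun n hn => (hωpos n (βω n ((hmemβ n).1 hn))).1)
        (fun n hn => (hωpos n (βω n ((hmemβ n).1 hn))).2.2)
        (fun m hm n hn h => hRRR m n ((hmemβ m).1 hm) ((hmemβ n).1 hn) h)
        (β ω) (β0 ω) (fun n hn => (hmemβ n).2 hn) ⟨_, hvi⟩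
        ⟨_, (hmemβ _).2 hvi, _, (hmemβ _).2 hvj, _, (hmemβ _).2 hvk, hij, hik, hjk⟩ hfR)
  have hB2 : ∀ i, B i = 0 ∨ B i = e := by
    intro i
    rcases hA2 i with h | h
    · right; linarith [hAB i]
    · left; linarith [hAB i]
  -- regions of the two supports are disjoint
  have hβA : ∀ n, 0 < β ω n → A n.2 = 0 := by
    intro n hn
    rcases hA2 n.2 with h | h
    · exact h
    · have := hBpos n hn
      linarith [hAB n.2]
  have hαB : ∀ n, 0 < α ω n → B n.2 = 0 := by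
    intro n hn
    rcases hB2 n.2 with h | h
    · exact h
    · have := hApos n hn
      linarith [hAB n.2]
  have hreg : ∀ m n : V × Fin 4, 0 < α ω m → 0 < β ω n → m.2 ≠ n.2 := by
    intro m n hm hn h
    have h1 := hApos m hm
    have h2 := hβA n hn
    rw [h] at h1
    linarith
  have hPne : (Finset.univ.filter fun n => 0 < α ω n).Nonempty := by
    obtain ⟨i, _, _, hi, _⟩ := two_of_four A e he hA2 hAs
    obtain ⟨v, hv⟩ := hAex i (by rw [hi]; exact he)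
    exact ⟨(v, i), (hmemα _).2 hv⟩
  rcases nested (Finset.univ.filter fun n => 0 < α ω n) (Finset.univ.filter fun n => 0 < β ω n)
    hPne (fun m n => Rc m.1 n.1) (fun m n h => hs _ _ h)
    (by
      intro p hp q hq p' hp' q' hq'
      rw [hmemα] at hp hp'
      rw [hmemβ] at hq hq'
      exact hC4 p q p' q' (αω p hp) (βω q hq) (αω p' hp') (βω q' hq') (hreg p q hp hq)
        (hreg p' q hp' hq).symm (hreg p' q' hp' hq') (hreg p q' hp hq').symm) with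
    ⟨q, hq, hqP⟩ | ⟨p, hp, hpQ⟩
  · rw [hmemβ] at hq
    exact side_contra H1L ht hnearL (α ω) (α0 ω) (fun n hn => (hωpos n (αω n hn)).1)
      (fun n hn => (hωpos n (αω n hn)).2.1) hRRL hfL he hA2 hAs q (hωpos q (βω q hq)).1
      (hωpos q (βω q hq)).2.1 (hβA q hq)
      (fun n hn => ⟨hqP n ((hmemα n).2 hn), fun h => hqP n ((hmemα n).2 hn) (hs _ _ h)⟩)
  · rw [hmemα] at hp
    exact side_contra H1R ht hnearR (β ω) (β0 ω) (fun n hn => (hωpos n (βω n hn)).1)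
      (fun n hn => (hωpos n (βω n hn)).2.2) hRRR hfR he hB2 hBs p (hωpos p (αω p hp)).1
      (hωpos p (αω p hp)).2.2 (hαB p hp)
      (fun n hn => ⟨hs _ _ (hpQ n ((hmemβ n).2 hn)), hpQ n ((hmemβ n).2 hn)⟩)

end Pool.Agent.Lib.MP_8fca14_co.Five
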