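import Pool.Agent.Lib.MP_8fca14_co.Six.CUT
import Pool.Agent.Lib.MP_8fca14_co.Five.MF5

set_option autoImplicit false

/-!
# Pairwise intersecting families are pierced by five points
-/

namespace Pool.Agent.Lib.MP_8fca14_co.Five

open Set
open Pool.Agent.Lib.MP_8fca14_co.Six

namespace Cs1Aux

/-- A convex set with a point on either side of the line meets the line. -/
theorem meets_line (D : Set Pl) (hD : Convex ℝ D) (ℓ : Pl →L[ℝ] ℝ) (c : ℝ)
    (x : Pl) (hx : x ∈ D) (hxc : ℓ x ≤ c) (y : Pl) (hy : y ∈ D) (hyc : c ≤ ℓ y) :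
    ∃ z ∈ D, ℓ z = c := by
  rcases eq_or_lt_of_le hxc with h | h
  · exact ⟨x, hx, h⟩
  have hpos : 0 < ℓ y - ℓ x := by linarith
  set r : ℝ := (c - ℓ x) / (ℓ y - ℓ x) with hr
  have hr0 : 0 ≤ r := by rw [hr]; apply div_nonneg <;> linarith
  have hr1 : r ≤ 1 := by rw [hr, div_le_one hpos]; linarith
  refine ⟨(1 - r) • x + r • y, hD hx hy (by linarith) hr0 (by ring), ?_⟩
  rw [map_add, map_smul, map_smul, smul_eq_mul, smul_eq_mul]
  have h3 : r * (ℓ y - ℓ x) = c - ℓ x := by rw [hr]; field_simp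
  linarith

/-- Helly on one side of the line. -/
theorem one_side_helly {V : Type*} [DecidableEq V] (D : V → Set Pl) (hDc : ∀ v, Convex ℝ (D v))
    (hDp : ∀ u v, (D u ∩ D v).Nonempty) (hD43 : FourThree D) (ℓ : Pl →L[ℝ] ℝ) (c : ℝ) (j : V)
    (hj : ∀ x ∈ D j, c ≤ ℓ x) (hm : ∀ v, ∃ x ∈ D v, ℓ x = c) (σ : Finset V)
    (hleft : ∀ u ∈ σ, ∀ v ∈ σ, u ≠ v → ∀ x ∈ D u ∩ D v, ℓ x < c) :
    ∃ z, ∀ v ∈ σ, z ∈ D v ∩ {x | ℓ x ≤ c} := by
  classical
  have key : (⋂ v ∈ σ, D v ∩ {x : Pl | ℓ x ≤ c}).Nonempty := by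
    refine Convex.helly_theorem' (𝕜 := ℝ) ?_ ?_
    · intro v _
      exact (hDc v).inter (convex_halfSpace_le ℓ.isLinear c)
    · intro I hI hcard
      have hcard' : I.card ≤ 3 := by simpa using hcard
      interval_cases hc : I.card
      · rw [Finset.card_eq_zero] at hc
        subst hc
        simp
      · obtain ⟨v, rfl⟩ := Finset.card_eq_one.1 hc
        obtain ⟨x, hx, hxc⟩ := hm v
        exact ⟨x, by simp [hx, hxc.le]⟩
      · obtain ⟨u, v, huv, rfl⟩ := Finset.card_eq_two.1 hc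
        obtain ⟨x, hxu, hxv⟩ := hDp u v
        have := hleft u (hI (by simp)) v (hI (by simp)) huv x ⟨hxu, hxv⟩
        exact ⟨x, by simp [hxu, hxv, this.le]⟩
      · obtain ⟨u, v, w, huv, huw, hvw, rfl⟩ := Finset.card_eq_three.1 hc
        have hu : u ∈ σ := hI (by simp)
        have hv : v ∈ σ := hI (by simp)
        have hw : w ∈ σ := hI (by simp)
        have hju : u ≠ j := by
          rintro rfl
          obtain ⟨x, hx1, hx2⟩ := hDp u v
          exact absurd (hleft u hu v hv huv x ⟨hx1, hx2⟩) (not_lt.2 (hj x hx1))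
        have hjv : v ≠ j := by
          rintro rfl
          obtain ⟨x, hx1, hx2⟩ := hDp u v
          exact absurd (hleft u hu v hv huv x ⟨hx1, hx2⟩) (not_lt.2 (hj x hx2))
        have hjw : w ≠ j := by
          rintro rfl
          obtain ⟨x, hx1, hx2⟩ := hDp u w
          exact absurd (hleft u hu w hw huw x ⟨hx1, hx2⟩) (not_lt.2 (hj x hx2))
        rcases hD43 u v w j huv huw hju hvw hjv hjw with h | h | h | h
        · obtain ⟨p, ⟨hp1, hp2⟩, hp3⟩ := h
          have := hleft u hu v hv huv p ⟨hp1, hp2⟩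
          exact ⟨p, by simp [hp1, hp2, hp3, this.le]⟩
        · obtain ⟨p, ⟨hp1, hp2⟩, hp3⟩ := h
          exact absurd (hleft u hu v hv huv p ⟨hp1, hp2⟩) (not_lt.2 (hj p hp3))
        · obtain ⟨p, ⟨hp1, hp2⟩, hp3⟩ := h
          exact absurd (hleft u hu w hw huw p ⟨hp1, hp2⟩) (not_lt.2 (hj p hp3))
        · obtain ⟨p, ⟨hp1, hp2⟩, hp3⟩ := h
          exact absurd (hleft v hv w hw hvw p ⟨hp1, hp2⟩) (not_lt.2 (hj p hp3))
  obtain ⟨z, hz⟩ := key
  rw [Set.mem_iInter₂] at hz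
  exact ⟨z, hz⟩

end Cs1Aux

open Cs1Aux

theorem case_pairwise {V : Type*} [Fintype V] [DecidableEq V] (C : V → Set Pl)
    (hC : ∀ v, Convex ℝ (C v)) (hCc : ∀ v, IsCompact (C v))
    (hpair : ∀ u v, (C u ∩ C v).Nonempty) (h43 : FourThree C) (hV : ∃ u v : V, u ≠ v) :
    ∃ P : Finset Pl, P.card ≤ 5 ∧ ∀ v, ∃ p ∈ P, p ∈ C v := by
  classical
  obtain ⟨D, ℓ, c, i, j, hℓ, hsub, hDc, hDk, hDp, hD43, hi, hj⟩ := cut C hC hCc hpair h43 hV
  have hm : ∀ v, ∃ x ∈ D v, ℓ x = c := by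
    intro v
    obtain ⟨x, hx, hxi⟩ := hDp v i
    obtain ⟨y, hy, hyj⟩ := hDp v j
    exact meets_line (D v) (hDc v) ℓ c x hx (hi x hxi) y hy (hj y hyj)
  have hbd : Bornology.IsBounded (⋃ v, D v) := (isCompact_iUnion hDk).isBounded
  obtain ⟨r, hr⟩ := hbd.subset_closedBall (0 : Pl)
  set K : Set Pl := Metric.closedBall 0 r with hK
  have hKc : IsCompact K := isCompact_closedBall _ _
  have hKconv : Convex ℝ K := convex_closedBall _ _
  have hDK : ∀ v, D v ⊆ K := fun v => (subset_iUnion D v).trans hr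
  have hK0 : K.Nonempty := by
    obtain ⟨u, v, _⟩ := hV
    obtain ⟨x, hx, _⟩ := hDp u v
    exact ⟨x, hDK u hx⟩
  obtain ⟨P, hP, wL, hwL, wR, hwR, hpierce⟩ := m_family D (fun v => D v ∩ {x | ℓ x ≤ c})
    (fun v => D v ∩ {x | c ≤ ℓ x}) K K hDc hDk
    (fun v => (hDc v).inter (convex_halfSpace_le ℓ.isLinear c))
    (fun v => (hDc v).inter (convex_halfSpace_ge ℓ.isLinear c))
    (fun v => (hDk v).isClosed.inter (isClosed_le ℓ.continuous continuous_const))
    (fun v => (hDk v).isClosed.inter (isClosed_le continuous_const ℓ.continuous))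
    hKconv hKconv hKc hKc hK0 hK0 ℓ hℓ c hm (fun u v _ => hDp u v) hD43
    (fun σ hσ hleft => by
      obtain ⟨z, hz⟩ := one_side_helly D hDc hDp hD43 ℓ c j hj hm σ hleft
      obtain ⟨v, hv⟩ := hσ
      exact ⟨z, hDK v (hz v hv).1, hz⟩)
    (fun σ hσ hright => by
      obtain ⟨z, hz⟩ := one_side_helly D hDc hDp hD43 (-ℓ) (-c) i
        (fun x hx => by simpa using hi x hx)
        (fun v => by
          obtain ⟨x, hx, hxc⟩ := hm v
          exact ⟨x, hx, by simp [hxc]⟩) σ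
        (fun u hu v hv huv x hx => by simpa using hright u hu v hv huv x hx)
      obtain ⟨v, hv⟩ := hσ
      refine ⟨z, hDK v (hz v hv).1, fun v hv => ⟨(hz v hv).1, ?_⟩⟩
      simpa using (hz v hv).2)
  refine ⟨insert wL (insert wR P), ?_, fun v => ?_⟩
  · refine (Finset.card_insert_le _ _).trans ?_
    have := Finset.card_insert_le wR P
    omega
  · rcases hpierce v with ⟨p, hp, hpv⟩ | h | h
    · exact ⟨p, by simp [hp], hsub v hpv⟩
    · exact ⟨wL, by simp, hsub v h.1⟩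
    · exact ⟨wR, by simp, hsub v h.1⟩

end Pool.Agent.Lib.MP_8fca14_co.Five
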