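import Pool.Agent.Lib.MP_8fca14_co.Six.STARC
import Pool.Agent.Lib.MP_8fca14_co.Five.MF5

set_option autoImplicit false

/-!
# The star case is pierced by five points
-/

namespace Pool.Agent.Lib.MP_8fca14_co.Five

open Set
open Pool.Agent.Lib.MP_8fca14_co.Six

theorem case_star {V : Type*} [Fintype V] [DecidableEq V] (C : V → Set Pl)
    (hC : ∀ v, Convex ℝ (C v)) (hCc : ∀ v, IsCompact (C v)) (hne : ∀ v, (C v).Nonempty)
    (h43 : FourThree C) (a₀ b₀ : V) (hab : b₀ ≠ a₀) (hdis : Disjoint (C a₀) (C b₀))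
    (hstar : ∀ u v, u ≠ a₀ → v ≠ a₀ → (C u ∩ C v).Nonempty) :
    ∃ P : Finset Pl, P.card ≤ 5 ∧ ∀ v, ∃ p ∈ P, p ∈ C v := by
  classical
  obtain ⟨KR, ℓ, c, hKR, hKRc, hKRne, hℓ, hKRb, hm, hL, hR⟩ :=
    star_core C hC hCc hne h43 a₀ b₀ hab hdis hstar
  obtain ⟨P, hP, wL, hwL, wR, hwR, hpierce⟩ := m_family
    (V := {v : V // v ≠ a₀ ∧ (C a₀ ∩ C v).Nonempty}) (fun v => C v)
    (fun v => C v ∩ C a₀) (fun v => C v ∩ KR) (C a₀) KR (fun v => hC v) (fun v => hCc v)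
    (fun v => (hC v).inter (hC a₀)) (fun v => (hC v).inter hKR)
    (fun v => (hCc v).isClosed.inter (hCc a₀).isClosed)
    (fun v => (hCc v).isClosed.inter hKRc.isClosed)
    (hC a₀) hKR (hCc a₀) hKRc (hne a₀) hKRne ℓ hℓ c hm
    (fun u v _ => hstar u v u.2.1 v.2.1)
    (fun i j k l hij hik hil hjk hjl hkl => h43 i j k l
      (fun h => hij (Subtype.ext h)) (fun h => hik (Subtype.ext h))
      (fun h => hil (Subtype.ext h)) (fun h => hjk (Subtype.ext h))
      (fun h => hjl (Subtype.ext h)) (fun h => hkl (Subtype.ext h))) hL hR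
  refine ⟨insert wL (insert wR P), ?_, fun v => ?_⟩
  · refine (Finset.card_insert_le _ _).trans ?_
    have := Finset.card_insert_le wR P
    omega
  · by_cases hva : v = a₀
    · subst hva
      exact ⟨wL, by simp, hwL⟩
    · by_cases hv : (C a₀ ∩ C v).Nonempty
      · rcases hpierce ⟨v, hva, hv⟩ with ⟨p, hp, hpv⟩ | h | h
        · exact ⟨p, by simp [hp], hpv⟩
        · exact ⟨wL, by simp, h.1⟩
        · exact ⟨wR, by simp, h.1⟩
      · exact ⟨wR, by simp, hKRb v hva hv hwR⟩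

end Pool.Agent.Lib.MP_8fca14_co.Five
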