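import Pool.Agent.Lib.MP_8fca14_co.Six.Defs

set_option autoImplicit false

/-!
# Definitions for the bound c(4,3,2) ≤ 5
-/

namespace Pool.Agent.Lib.MP_8fca14_co.Five

/-- the weight of node `(v, i)`: positive iff `v` lies strictly between `t i` and `t (i+1)`
and `dL v`, `dR v` are positive. -/
def weight {V : Type*} (a b : V → ℝ) (t : ℕ → ℝ) (dL dR : V → ℝ) (n : V × Fin 4) : ℝ :=
  max 0 (a n.1 - t n.2) * max 0 (t (n.2 + 1) - b n.1) * (dL n.1 * dR n.1)

end Pool.Agent.Lib.MP_8fca14_co.Five
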