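import Pool.Agent.Lib.MP_8fca14_co.Six.RED
import Pool.Agent.Lib.MP_8fca14_co.Six.STR
import Pool.Agent.Lib.MP_8fca14_co.Five.CS15
import Pool.Agent.Lib.MP_8fca14_co.Five.CS25

set_option autoImplicit false

/-!
# FIN5: the final theorem
-/

namespace Pool.Agent.Lib.MP_8fca14_co.Five

open Set
open Pool.Agent.Lib.MP_8fca14_co.Six

theorem five {V : Type*} [Fintype V] (C : V → Set Pl)
    (hC : ∀ v, Convex ℝ (C v)) (hne : ∀ v, (C v).Nonempty)
    (h43 : ∀ s : Finset V, s.card = 4 → ∃ t ⊆ s, t.card = 3 ∧ (⋂ i ∈ t, C i).Nonempty) :
    ∃ P : Finset Pl, P.card ≤ 5 ∧ ∀ v, ∃ p ∈ P, p ∈ C v := by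
  classical
  rcases lt_or_ge (Fintype.card V) 4 with hV | hV
  · -- at most three members: one point for each
    choose z hz using hne
    refine ⟨Finset.univ.image z, ?_, fun v => ⟨z v, Finset.mem_image_of_mem _ (Finset.mem_univ v),
      hz v⟩⟩
    calc (Finset.univ.image z).card ≤ (Finset.univ : Finset V).card := Finset.card_image_le
      _ = Fintype.card V := rfl
      _ ≤ 5 := by omega
  have hFT : FourThree C := by
    intro i j k l hij hik hil hjk hjl hkl
    obtain ⟨t, hts, ht3, x, hx⟩ := h43 {i, j, k, l} (by
      rw [Finset.card_insert_of_notMem (by simp [hij, hik, hil]),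
        Finset.card_insert_of_notMem (by simp [hjk, hjl]),
        Finset.card_insert_of_notMem (by simp [hkl]), Finset.card_singleton])
    rw [mem_iInter₂] at hx
    -- the missing element
    have hmem : ∀ y ∈ t, y = i ∨ y = j ∨ y = k ∨ y = l := fun y hy => by
      simpa using hts hy
    by_cases hi : i ∈ t
    · by_cases hj : j ∈ t
      · by_cases hk : k ∈ t
        · exact Or.inl ⟨x, ⟨hx i hi, hx j hj⟩, hx k hk⟩
        · by_cases hl : l ∈ t
          · exact Or.inr (Or.inl ⟨x, ⟨hx i hi, hx j hj⟩, hx l hl⟩)
          · exfalso
            have : t ⊆ {i, j} := fun y hy => by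
              rcases hmem y hy with rfl | rfl | rfl | rfl
              · simp
              · simp
              · exact absurd hy hk
              · exact absurd hy hl
            have := (Finset.card_le_card this).trans Finset.card_le_two
            omega
      · by_cases hk : k ∈ t
        · by_cases hl : l ∈ t
          · exact Or.inr (Or.inr (Or.inl ⟨x, ⟨hx i hi, hx k hk⟩, hx l hl⟩))
          · exfalso
            have : t ⊆ {i, k} := fun y hy => by
              rcases hmem y hy with rfl | rfl | rfl | rfl
              · simp
              · exact absurd hy hj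
              · simp
              · exact absurd hy hl
            have := (Finset.card_le_card this).trans Finset.card_le_two
            omega
        · exfalso
          have : t ⊆ {i, l} := fun y hy => by
            rcases hmem y hy with rfl | rfl | rfl | rfl
            · simp
            · exact absurd hy hj
            · exact absurd hy hk
            · simp
          have := (Finset.card_le_card this).trans Finset.card_le_two
          omega
    · by_cases hj : j ∈ t
      · by_cases hk : k ∈ t
        · by_cases hl : l ∈ t
          · exact Or.inr (Or.inr (Or.inr ⟨x, ⟨hx j hj, hx k hk⟩, hx l hl⟩))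
          · exfalso
            have : t ⊆ {j, k} := fun y hy => by
              rcases hmem y hy with rfl | rfl | rfl | rfl
              · exact absurd hy hi
              · simp
              · simp
              · exact absurd hy hl
            have := (Finset.card_le_card this).trans Finset.card_le_two
            omega
        · exfalso
          have : t ⊆ {j, l} := fun y hy => by
            rcases hmem y hy with rfl | rfl | rfl | rfl
            · exact absurd hy hi
            · simp
            · exact absurd hy hk
            · simp
          have := (Finset.card_le_card this).trans Finset.card_le_two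
          omega
      · exfalso
        have : t ⊆ {k, l} := fun y hy => by
          rcases hmem y hy with rfl | rfl | rfl | rfl
          · exact absurd hy hi
          · exact absurd hy hj
          · simp
          · simp
        have := (Finset.card_le_card this).trans Finset.card_le_two
        omega
  obtain ⟨D, hDC, hDv, hDc, hDn, hDFT⟩ := compact_reduction C hC hne hFT
  have hfin : ∃ P : Finset Pl, P.card ≤ 5 ∧ ∀ v, ∃ p ∈ P, p ∈ D v := by
    rcases star_structure D hDn hDFT hV with h | ⟨a₀, b₀, hab, hdis, hst⟩
    · refine case_pairwise D hDv hDc h hDFT ?_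
      have : 1 < Fintype.card V := by omega
      obtain ⟨u, v, huv⟩ := Fintype.one_lt_card_iff.1 this
      exact ⟨u, v, huv⟩
    · exact case_star D hDv hDc hDn hDFT a₀ b₀ hab hdis hst
  obtain ⟨P, hP, hP'⟩ := hfin
  exact ⟨P, hP, fun v => by
    obtain ⟨p, hp, hpD⟩ := hP' v
    exact ⟨p, hp, hDC v hpD⟩⟩

end Pool.Agent.Lib.MP_8fca14_co.Five
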